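import Mathlib

set_option autoImplicit false

/-!
# Expected principal minors over random signings

`Fav ℓ M U` is the expectation of the principal minor on `U` of `M + ∑ e, s e * √(w e) * E e` over
independent uniform signs `s e`.
-/

namespace Pool.Agent.H.MP_8e2f96_co

open Matrix Finset

variable {V : Type*} [Fintype V] [DecidableEq V]

section generic

variable {R : Type*} [CommRing R]

/-- `M` with the rows outside `U` replaced by rows of the identity matrix. -/
def rowRes (M : Matrix V V R) (U : Finset V) : Matrix V V R :=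
  Matrix.of fun i j => if i ∈ U then M i j else (1 : Matrix V V R) i j

/-- The principal minor of `M` on `U`. -/
def Dm (M : Matrix V V R) (U : Finset V) : R := (rowRes M U).det

/-- The symmetric elementary matrix of a pair. -/
def Esym (e : V × V) : Matrix V V R := Matrix.single e.1 e.2 1 + Matrix.single e.2 e.1 1

lemma rowRes_univ (M : Matrix V V R) : rowRes M Finset.univ = M := by
  ext i j; simp [rowRes]

lemma Dm_univ (M : Matrix V V R) : Dm M Finset.univ = M.det := by
  simp [Dm, rowRes_univ]

lemma Dm_empty (M : Matrix V V R) : Dm M ∅ = 1 := by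
  have : rowRes M ∅ = 1 := by ext i j; simp [rowRes]
  simp [Dm, this]

lemma rowRes_erase (M : Matrix V V R) (U : Finset V) (u : V) :
    rowRes M (U.erase u) = (rowRes M U).updateRow u (Pi.single u 1) := by
  ext i j
  by_cases hi : i = u
  · subst hi
    by_cases hj : j = i
    · subst hj; simp [rowRes]
    · simp [rowRes, Matrix.one_apply_ne' hj, hj]
  · simp [rowRes, hi, Matrix.updateRow_ne hi]

lemma rowRes_add_single_diag (M : Matrix V V R) (U : Finset V) (u : V) (t : R) (hu : u ∈ U) :
    rowRes (M + t • Matrix.single u u 1) U =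
      (rowRes M U).updateRow u ((rowRes M U) u + t • Pi.single u 1) := by
  ext i j
  by_cases hi : i = u
  · subst hi
    by_cases hj : j = i
    · subst hj; simp [rowRes, hu]
    · simp [rowRes, hu, Matrix.single_apply, hj, Ne.symm hj]
  · have : ¬ (u = i) := fun h => hi h.symm
    simp [rowRes, Matrix.updateRow_ne hi, Matrix.single_apply, this]

/-- Affine dependence on a diagonal entry. -/
lemma Dm_add_diag (M : Matrix V V R) (U : Finset V) (u : V) (t : R) (hu : u ∈ U) :
    Dm (M + t • Matrix.single u u 1) U = Dm M U + t * Dm M (U.erase u) := by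
  unfold Dm
  rw [rowRes_add_single_diag M U u t hu, Matrix.det_updateRow_add, Matrix.det_updateRow_smul,
    rowRes_erase, Matrix.updateRow_eq_self]

lemma rowRes_add_single_of_notMem (M : Matrix V V R) (U : Finset V) (u v : V) (t : R)
    (hu : u ∉ U) : rowRes (M + t • Matrix.single u v 1) U = rowRes M U := by
  ext i j
  by_cases hi : i ∈ U
  · have : ¬ (u = i) := fun h => hu (h ▸ hi)
    simp [rowRes, hi, Matrix.single_apply, this]
  · simp [rowRes, hi]

lemma Dm_add_single_of_notMem (M : Matrix V V R) (U : Finset V) (u v : V) (t : R)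
    (hu : u ∉ U) : Dm (M + t • Matrix.single u v 1) U = Dm M U := by
  unfold Dm; rw [rowRes_add_single_of_notMem M U u v t hu]

lemma rowRes_add_single (M : Matrix V V R) (U : Finset V) (u v : V) (t : R) (hu : u ∈ U) :
    rowRes (M + t • Matrix.single u v 1) U =
      (rowRes M U).updateRow u ((rowRes M U) u + t • Pi.single v 1) := by
  ext i j
  by_cases hi : i = u
  · subst hi
    by_cases hj : j = v
    · subst hj; simp [rowRes, hu]
    · simp [rowRes, hu, Matrix.single_apply, hj, Ne.symm hj]
  · have : ¬ (u = i) := fun h => hi h.symm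
    simp [rowRes, Matrix.updateRow_ne hi, Matrix.single_apply, this]

/-- adding a multiple of a column unit vector outside `U` does not change the minor -/
lemma Dm_add_single_notMem_right (M : Matrix V V R) (U : Finset V) (u v : V) (t : R)
    (hu : u ∈ U) (hv : v ∉ U) : Dm (M + t • Matrix.single u v 1) U = Dm M U := by
  unfold Dm
  rw [rowRes_add_single M U u v t hu]
  have hne : u ≠ v := fun h => hv (h ▸ hu)
  have hrow : (Pi.single v 1 : V → R) = rowRes M U v := by
    ext j
    by_cases hj : j = v
    · subst hj; simp [rowRes, hv]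
    · simp [rowRes, hv, hj, Matrix.one_apply_ne' hj]
  rw [hrow]
  exact Matrix.det_updateRow_add_smul_self (rowRes M U) hne t

/-- Dependence of the minor on the entry of a symmetric pair. -/
lemma Dm_add_edge (M : Matrix V V R) (U : Finset V) (e : V × V) (he : e.1 ≠ e.2) :
    ∃ K : R, ∀ a : R, Dm (M + a • Esym e) U = Dm M U + a * K -
      a ^ 2 * (if e.1 ∈ U ∧ e.2 ∈ U then Dm M ((U.erase e.1).erase e.2) else 0) := by
  obtain ⟨u, v⟩ := e
  simp only at he
  have hE : ∀ a : R, M + a • (Esym (u, v) : Matrix V V R) =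
      M + a • Matrix.single u v 1 + a • Matrix.single v u 1 := by
    intro a; simp [Esym, smul_add, add_assoc]
  by_cases hu : u ∈ U
  · by_cases hv : v ∈ U
    · refine ⟨((rowRes M U).updateRow u (Pi.single v 1)).det +
        ((rowRes M U).updateRow v (Pi.single u 1)).det, fun a => ?_⟩
      simp only [hu, hv, and_self, if_true]
      rw [hE]
      unfold Dm
      rw [rowRes_add_single _ U v u a hv, rowRes_add_single M U u v a hu]
      set N := rowRes M U with hN
      rw [Matrix.updateRow_ne he.symm, Matrix.det_updateRow_add, Matrix.det_updateRow_smul]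
      have h1 : ((N.updateRow u (N u + a • Pi.single v 1)).updateRow v (N v)) =
          N.updateRow u (N u + a • Pi.single v 1) := by
        rw [Matrix.updateRow_comm _ he]
        rw [Matrix.updateRow_eq_self]
      have h2 : ((N.updateRow u (N u + a • Pi.single v 1)).updateRow v (Pi.single u 1)) =
          (N.updateRow v (Pi.single u 1)).updateRow u (N u + a • Pi.single v 1) := by
        rw [Matrix.updateRow_comm _ he]
      rw [h1, h2, Matrix.det_updateRow_add, Matrix.det_updateRow_smul,
        Matrix.det_updateRow_add, Matrix.det_updateRow_smul, Matrix.updateRow_eq_self]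
      have h3 : (N.updateRow v (Pi.single u 1)).updateRow u (N u) =
          N.updateRow v (Pi.single u 1) := by
        rw [Matrix.updateRow_comm _ he.symm, Matrix.updateRow_eq_self]
      have h4 : ((N.updateRow v (Pi.single u 1)).updateRow u (Pi.single v 1)).det =
          - (rowRes M ((U.erase u).erase v)).det := by
        rw [rowRes_erase, rowRes_erase, ← hN]
        have hsw : ((N.updateRow v (Pi.single u 1)).updateRow u (Pi.single v 1)) =
            ((N.updateRow u (Pi.single u 1)).updateRow v (Pi.single v 1)).submatrix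
              (Equiv.swap u v) id := by
          ext i j
          by_cases hiu : i = u
          · subst hiu; simp
          · by_cases hiv : i = v
            · subst hiv
              simp [Matrix.updateRow_ne hiu, Matrix.updateRow_ne he]
            · simp [Matrix.updateRow_ne hiu, Matrix.updateRow_ne hiv,
                Equiv.swap_apply_of_ne_of_ne hiu hiv]
        rw [hsw, Matrix.det_permute, Equiv.Perm.sign_swap he]
        simp
      rw [h3, h4]
      ring
    · refine ⟨0, fun a => ?_⟩
      simp only [hv, and_false, if_false]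
      rw [hE, Dm_add_single_of_notMem _ U v u a hv, Dm_add_single_notMem_right M U u v a hu hv]
      ring
  · refine ⟨0, fun a => ?_⟩
    simp only [hu, false_and, if_false]
    rw [hE]
    by_cases hv : v ∈ U
    · rw [Dm_add_single_notMem_right _ U v u a hv hu, Dm_add_single_of_notMem M U u v a hu]
      ring
    · rw [Dm_add_single_of_notMem _ U v u a hv, Dm_add_single_of_notMem M U u v a hu]
      ring

lemma Dm_map {S : Type*} [CommRing S] (φ : R →+* S) (M : Matrix V V R) (U : Finset V) :
    φ (Dm M U) = Dm (M.map φ) U := by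
  unfold Dm
  rw [RingHom.map_det]
  congr 1
  ext i j
  by_cases hi : i ∈ U
  · simp [rowRes, hi]
  · by_cases hij : i = j
    · subst hij; simp [rowRes, hi]
    · simp [rowRes, hi, Matrix.one_apply_ne hij]

end generic

section algebra

variable {R : Type*} [CommRing R] [Algebra ℝ R]

/-- The expected principal minor on `U` of `M + ∑ s e √(w e) E e` over random signs. -/
def Fav : List ((V × V) × ℝ) → Matrix V V R → Finset V → R
  | [], M, U => Dm M U
  | (e, w) :: l, M, U => Fav l M U -
      (if e.1 ∈ U ∧ e.2 ∈ U then algebraMap ℝ R w * Fav l M ((U.erase e.1).erase e.2) else 0)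

@[simp] lemma Fav_nil (M : Matrix V V R) (U : Finset V) : Fav [] M U = Dm M U := rfl

lemma Fav_cons (e : V × V) (w : ℝ) (l : List ((V × V) × ℝ)) (M : Matrix V V R) (U : Finset V) :
    Fav ((e, w) :: l) M U = Fav l M U -
      (if e.1 ∈ U ∧ e.2 ∈ U then algebraMap ℝ R w * Fav l M ((U.erase e.1).erase e.2) else 0) :=
  rfl

lemma Fav_add_diag_notMem (l : List ((V × V) × ℝ)) (M : Matrix V V R) (U : Finset V) (u : V)
    (t : R) (hu : u ∉ U) : Fav l (M + t • Matrix.single u u 1) U = Fav l M U := by
  induction l generalizing U with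
  | nil => exact Dm_add_single_of_notMem M U u u t hu
  | cons p l ih =>
    obtain ⟨e, w⟩ := p
    rw [Fav_cons, Fav_cons, ih U hu]
    rw [ih ((U.erase e.1).erase e.2) (by simp [hu])]

lemma Fav_add_diag (l : List ((V × V) × ℝ)) (M : Matrix V V R) (U : Finset V) (u : V) (t : R)
    (hu : u ∈ U) :
    Fav l (M + t • Matrix.single u u 1) U = Fav l M U + t * Fav l M (U.erase u) := by
  induction l generalizing U with
  | nil => exact Dm_add_diag M U u t hu
  | cons p l ih =>
    obtain ⟨e, w⟩ := p
    rw [Fav_cons, Fav_cons, Fav_cons, ih U hu]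
    by_cases he : e.1 ∈ U ∧ e.2 ∈ U
    · rw [if_pos he, if_pos he]
      by_cases hu1 : u = e.1
      · have hn : ¬ (e.1 ∈ U.erase u ∧ e.2 ∈ U.erase u) := by simp [hu1]
        rw [if_neg hn, Fav_add_diag_notMem l M _ u t (by simp [hu1])]
        ring
      · by_cases hu2 : u = e.2
        · have hn : ¬ (e.1 ∈ U.erase u ∧ e.2 ∈ U.erase u) := by simp [hu2]
          rw [if_neg hn, Fav_add_diag_notMem l M _ u t (by simp [hu2])]
          ring
        · have hp : (e.1 ∈ U.erase u ∧ e.2 ∈ U.erase u) := by
            simp [he.1, he.2, Ne.symm hu1, Ne.symm hu2]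
          rw [if_pos hp, ih _ (by simp [hu, hu1, hu2])]
          have hset : ((U.erase e.1).erase e.2).erase u = ((U.erase u).erase e.1).erase e.2 := by
            ext x; simp only [Finset.mem_erase]; tauto
          rw [hset]
          ring
    · rw [if_neg he, if_neg he]
      have hn : ¬ (e.1 ∈ U.erase u ∧ e.2 ∈ U.erase u) := by
        intro h
        exact he ⟨Finset.mem_of_mem_erase h.1, Finset.mem_of_mem_erase h.2⟩
      rw [if_neg hn]
      ring

lemma Dm_add_edge_notMem (M : Matrix V V R) (U : Finset V) (e : V × V) (a : R)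
    (he : ¬ (e.1 ∈ U ∧ e.2 ∈ U)) : Dm (M + a • Esym e) U = Dm M U := by
  obtain ⟨u, v⟩ := e
  simp only at he
  have hE : M + a • (Esym (u, v) : Matrix V V R) =
      M + a • Matrix.single u v 1 + a • Matrix.single v u 1 := by
    simp [Esym, smul_add, add_assoc]
  rw [hE]
  by_cases hu : u ∈ U
  · have hv : v ∉ U := fun hv => he ⟨hu, hv⟩
    rw [Dm_add_single_of_notMem _ U v u a hv, Dm_add_single_notMem_right M U u v a hu hv]
  · by_cases hv : v ∈ U
    · rw [Dm_add_single_notMem_right _ U v u a hv hu, Dm_add_single_of_notMem M U u v a hu]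
    · rw [Dm_add_single_of_notMem _ U v u a hv, Dm_add_single_of_notMem M U u v a hu]

lemma Fav_add_edge_notMem (l : List ((V × V) × ℝ)) (M : Matrix V V R) (U : Finset V) (e : V × V)
    (a : R) (he : ¬ (e.1 ∈ U ∧ e.2 ∈ U)) : Fav l (M + a • Esym e) U = Fav l M U := by
  induction l generalizing U with
  | nil => exact Dm_add_edge_notMem M U e a he
  | cons p l ih =>
    obtain ⟨f, w⟩ := p
    rw [Fav_cons, Fav_cons, ih U he, ih ((U.erase f.1).erase f.2)]
    intro h
    exact he ⟨Finset.mem_of_mem_erase (Finset.mem_of_mem_erase h.1),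
      Finset.mem_of_mem_erase (Finset.mem_of_mem_erase h.2)⟩

lemma Fav_add_edge (l : List ((V × V) × ℝ)) (M : Matrix V V R) (U : Finset V) (e : V × V)
    (he : e.1 ≠ e.2) :
    ∃ K : R, ∀ a : R, Fav l (M + a • Esym e) U = Fav l M U + a * K -
      a ^ 2 * (if e.1 ∈ U ∧ e.2 ∈ U then Fav l M ((U.erase e.1).erase e.2) else 0) := by
  induction l generalizing U with
  | nil => exact Dm_add_edge M U e he
  | cons p l ih =>
    obtain ⟨f, w⟩ := p
    by_cases hf : f.1 ∈ U ∧ f.2 ∈ U
    · obtain ⟨K1, hK1⟩ := ih U
      obtain ⟨K2, hK2⟩ := ih ((U.erase f.1).erase f.2)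
      refine ⟨K1 - algebraMap ℝ R w * K2, fun a => ?_⟩
      rw [Fav_cons, Fav_cons, Fav_cons, hK1, hK2, if_pos hf, if_pos hf]
      by_cases heU : e.1 ∈ U ∧ e.2 ∈ U
      · rw [if_pos heU, if_pos heU]
        by_cases hef : e.1 ∈ (U.erase f.1).erase f.2 ∧ e.2 ∈ (U.erase f.1).erase f.2
        · have hfe : f.1 ∈ (U.erase e.1).erase e.2 ∧ f.2 ∈ (U.erase e.1).erase e.2 := by
            simp only [Finset.mem_erase] at hef ⊢
            obtain ⟨⟨h1, h2, _⟩, h3, h4, _⟩ := hef
            exact ⟨⟨Ne.symm h4, Ne.symm h2, hf.1⟩, ⟨Ne.symm h3, Ne.symm h1, hf.2⟩⟩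
          rw [if_pos hef, if_pos hfe]
          have hset : (((U.erase f.1).erase f.2).erase e.1).erase e.2 =
              (((U.erase e.1).erase e.2).erase f.1).erase f.2 := by
            ext x; simp only [Finset.mem_erase]; tauto
          rw [hset]
          ring
        · have hfe : ¬ (f.1 ∈ (U.erase e.1).erase e.2 ∧ f.2 ∈ (U.erase e.1).erase e.2) := by
            intro h
            apply hef
            simp only [Finset.mem_erase] at h ⊢
            obtain ⟨⟨h1, h2, _⟩, h3, h4, _⟩ := h
            exact ⟨⟨Ne.symm h4, Ne.symm h2, heU.1⟩, ⟨Ne.symm h3, Ne.symm h1, heU.2⟩⟩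
          rw [if_neg hef, if_neg hfe]
          ring
      · rw [if_neg heU, if_neg heU]
        have hef : ¬ (e.1 ∈ (U.erase f.1).erase f.2 ∧ e.2 ∈ (U.erase f.1).erase f.2) := by
          intro h
          exact heU ⟨Finset.mem_of_mem_erase (Finset.mem_of_mem_erase h.1),
            Finset.mem_of_mem_erase (Finset.mem_of_mem_erase h.2)⟩
        rw [if_neg hef]
        ring
    · obtain ⟨K1, hK1⟩ := ih U
      refine ⟨K1, fun a => ?_⟩
      have hfe : ¬ (f.1 ∈ (U.erase e.1).erase e.2 ∧ f.2 ∈ (U.erase e.1).erase e.2) := by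
        intro h
        exact hf ⟨Finset.mem_of_mem_erase (Finset.mem_of_mem_erase h.1),
          Finset.mem_of_mem_erase (Finset.mem_of_mem_erase h.2)⟩
      rw [Fav_cons, Fav_cons, Fav_cons, hK1, if_neg hf, if_neg hf, if_neg hfe]
      simp only [sub_zero]

lemma Fav_map {S : Type*} [CommRing S] [Algebra ℝ S] (φ : R →ₐ[ℝ] S) (l : List ((V × V) × ℝ))
    (M : Matrix V V R) (U : Finset V) : φ (Fav l M U) = Fav l (M.map φ) U := by
  induction l generalizing U with
  | nil => exact Dm_map (φ : R →+* S) M U
  | cons p l ih =>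
    obtain ⟨f, w⟩ := p
    rw [Fav_cons, Fav_cons, map_sub, ih]
    split_ifs
    · rw [map_mul, ih, AlgHom.commutes]
    · simp

end algebra

end Pool.Agent.H.MP_8e2f96_co
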