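import Mathlib
import Pool.Agent.H.MP_8e2f96_co.Fav

set_option autoImplicit false
set_option linter.unusedSectionVars false

/-!
# Vertex recursion for the matching-type polynomial and lower bounds
-/

namespace Pool.Agent.H.MP_8e2f96_co

open Matrix Finset

variable {V : Type*} [Fintype V] [DecidableEq V]

lemma Dm_diagonal (δ : V → ℝ) (U : Finset V) : Dm (Matrix.diagonal δ) U = ∏ i ∈ U, δ i := by
  have h : rowRes (Matrix.diagonal δ) U = Matrix.diagonal (fun i => if i ∈ U then δ i else 1) := by
    ext i j
    by_cases hij : i = j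
    · subst hij; by_cases hi : i ∈ U <;> simp [rowRes, hi]
    · by_cases hi : i ∈ U <;> simp [rowRes, hi, hij, Matrix.one_apply_ne hij]
  rw [Dm, h, Matrix.det_diagonal, Finset.prod_ite_mem, Finset.univ_inter]

/-- The term of the vertex recursion. -/
noncomputable def term (D : Matrix V V ℝ) (l : List ((V × V) × ℝ)) (U : Finset V) (v : V)
    (p : (V × V) × ℝ) : ℝ :=
  if (p.1.1 = v ∨ p.1.2 = v) ∧ (p.1.1 ∈ U ∧ p.1.2 ∈ U) then
    p.2 * Fav l D ((U.erase p.1.1).erase p.1.2) else 0

lemma Fav_diag_rec (δ : V → ℝ) (l : List ((V × V) × ℝ)) (hne : ∀ p ∈ l, p.1.1 ≠ p.1.2) :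
    ∀ (U : Finset V) (v : V), v ∈ U →
    Fav l (Matrix.diagonal δ) U = δ v * Fav l (Matrix.diagonal δ) (U.erase v) -
      (l.map (term (Matrix.diagonal δ) l U v)).sum := by
  induction l with
  | nil =>
    intro U v hv
    simp only [Fav_nil, Dm_diagonal, List.map_nil, List.sum_nil, sub_zero]
    rw [Finset.mul_prod_erase _ _ hv]
  | cons p l ih =>
    obtain ⟨e, w⟩ := p
    have ih' := ih (fun p hp => hne p (List.mem_cons_of_mem _ hp))
    set D := Matrix.diagonal δ with hD
    intro U v hv
    rw [List.map_cons, List.sum_cons]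
    by_cases he : e.1 ∈ U ∧ e.2 ∈ U
    · by_cases hve : e.1 = v ∨ e.2 = v
      · -- the edge contains v
        have h1 : ¬ (e.1 ∈ U.erase v ∧ e.2 ∈ U.erase v) := by
          rcases hve with h | h <;> simp [h]
        have h2 : ¬ (e.1 ∈ (U.erase e.1).erase e.2 ∧ e.2 ∈ (U.erase e.1).erase e.2) := by simp
        have hsum : (l.map (term D ((e, w) :: l) U v)) = (l.map (term D l U v)) := by
          apply List.map_congr_left
          intro p _
          unfold term
          by_cases hp : (p.1.1 = v ∨ p.1.2 = v) ∧ (p.1.1 ∈ U ∧ p.1.2 ∈ U)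
          · rw [if_pos hp, if_pos hp, Fav_cons, if_neg, sub_zero]
            intro hh
            rcases hve with h | h <;> rcases hp.1 with h' | h' <;>
              simp [h, h'] at hh
          · rw [if_neg hp, if_neg hp]
        rw [hsum, Fav_cons, Fav_cons, if_pos he, if_neg h1, ih' U v hv]
        have hterm : term D ((e, w) :: l) U v (e, w) = w * Fav l D ((U.erase e.1).erase e.2) := by
          unfold term
          rw [if_pos ⟨hve, he⟩, Fav_cons, if_neg h2, sub_zero]
        rw [hterm]
        simp only [Algebra.algebraMap_self, RingHom.id_apply]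
        ring
      · -- the edge is inside U and avoids v
        push Not at hve
        have h1 : (e.1 ∈ U.erase v ∧ e.2 ∈ U.erase v) := by
          simp [he.1, he.2, hve.1, hve.2]
        have hvU : v ∈ (U.erase e.1).erase e.2 := by
          simp [hv, hve.1.symm, hve.2.symm]
        have hterm : term D ((e, w) :: l) U v (e, w) = 0 := by
          unfold term
          rw [if_neg]
          rintro ⟨h | h, _⟩
          · exact hve.1 h
          · exact hve.2 h
        have hsum : (l.map (term D ((e, w) :: l) U v)).sum =
            (l.map (term D l U v)).sum + (-w) * (l.map (term D l ((U.erase e.1).erase e.2) v)).sum := by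
          rw [← List.sum_map_mul_left, ← List.sum_map_add]
          congr 1
          apply List.map_congr_left
          intro p _
          unfold term
          by_cases hp : (p.1.1 = v ∨ p.1.2 = v) ∧ (p.1.1 ∈ U ∧ p.1.2 ∈ U)
          · rw [if_pos hp, if_pos hp, Fav_cons]
            by_cases hpe : (e.1 ∈ (U.erase p.1.1).erase p.1.2 ∧ e.2 ∈ (U.erase p.1.1).erase p.1.2)
            · have hep : (p.1.1 ∈ (U.erase e.1).erase e.2 ∧ p.1.2 ∈ (U.erase e.1).erase e.2) := by
                simp only [Finset.mem_erase] at hpe ⊢
                obtain ⟨⟨a1, a2, _⟩, a3, a4, _⟩ := hpe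
                exact ⟨⟨Ne.symm a4, Ne.symm a2, hp.2.1⟩, ⟨Ne.symm a3, Ne.symm a1, hp.2.2⟩⟩
              rw [if_pos hpe, if_pos ⟨hp.1, hep⟩]
              have hset : (((U.erase p.1.1).erase p.1.2).erase e.1).erase e.2 =
                  (((U.erase e.1).erase e.2).erase p.1.1).erase p.1.2 := by
                ext x; simp only [Finset.mem_erase]; tauto
              rw [hset]
              simp only [Algebra.algebraMap_self, RingHom.id_apply]
              ring
            · have hep : ¬ ((p.1.1 = v ∨ p.1.2 = v) ∧
                  (p.1.1 ∈ (U.erase e.1).erase e.2 ∧ p.1.2 ∈ (U.erase e.1).erase e.2)) := by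
                rintro ⟨_, h⟩
                apply hpe
                simp only [Finset.mem_erase] at h ⊢
                obtain ⟨⟨a1, a2, _⟩, a3, a4, _⟩ := h
                exact ⟨⟨Ne.symm a4, Ne.symm a2, he.1⟩, ⟨Ne.symm a3, Ne.symm a1, he.2⟩⟩
              rw [if_neg hpe, if_neg hep]
              ring
          · have hep : ¬ ((p.1.1 = v ∨ p.1.2 = v) ∧
                  (p.1.1 ∈ (U.erase e.1).erase e.2 ∧ p.1.2 ∈ (U.erase e.1).erase e.2)) := by
              rintro ⟨h1, h⟩
              exact hp ⟨h1, Finset.mem_of_mem_erase (Finset.mem_of_mem_erase h.1),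
                Finset.mem_of_mem_erase (Finset.mem_of_mem_erase h.2)⟩
            rw [if_neg hp, if_neg hp, if_neg hep]
            ring
        have hset : ((U.erase e.1).erase e.2).erase v = ((U.erase v).erase e.1).erase e.2 := by
          ext x; simp only [Finset.mem_erase]; tauto
        rw [hsum, hterm, Fav_cons, Fav_cons, if_pos he, if_pos h1, ih' U v hv, ih' _ v hvU, hset]
        simp only [Algebra.algebraMap_self, RingHom.id_apply]
        ring
    · have h1 : ¬ (e.1 ∈ U.erase v ∧ e.2 ∈ U.erase v) := by
        intro h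
        exact he ⟨Finset.mem_of_mem_erase h.1, Finset.mem_of_mem_erase h.2⟩
      have hterm : term D ((e, w) :: l) U v (e, w) = 0 := by
        unfold term
        rw [if_neg]
        rintro ⟨_, h⟩
        exact he h
      have hsum : (l.map (term D ((e, w) :: l) U v)) = (l.map (term D l U v)) := by
        apply List.map_congr_left
        intro p _
        unfold term
        by_cases hp : (p.1.1 = v ∨ p.1.2 = v) ∧ (p.1.1 ∈ U ∧ p.1.2 ∈ U)
        · rw [if_pos hp, if_pos hp, Fav_cons, if_neg, sub_zero]
          intro hh
          exact he ⟨Finset.mem_of_mem_erase (Finset.mem_of_mem_erase hh.1),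
            Finset.mem_of_mem_erase (Finset.mem_of_mem_erase hh.2)⟩
        · rw [if_neg hp, if_neg hp]
      rw [hsum, hterm, Fav_cons, Fav_cons, if_neg he, if_neg h1, ih' U v hv]
      ring

end Pool.Agent.H.MP_8e2f96_co
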