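import Mathlib
import Pool.Agent.H.MP_8e2f96_co.Rec

set_option autoImplicit false
set_option linter.unusedSectionVars false

/-!
# Lower bounds for the smallest root of the expected characteristic polynomial
-/

namespace Pool.Agent.H.MP_8e2f96_co

open Matrix Finset

variable {V : Type*} [Fintype V] [DecidableEq V]

/-- Edges of `G`, each once, as ordered pairs. -/
noncomputable def edgeList (G : SimpleGraph V) [DecidableRel G.Adj] : List (V × V) :=
  ((Finset.univ : Finset (V × V)).filter
    (fun p => G.Adj p.1 p.2 ∧ Fintype.equivFin V p.1 < Fintype.equivFin V p.2)).toList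

lemma mem_edgeList (G : SimpleGraph V) [DecidableRel G.Adj] (p : V × V) :
    p ∈ edgeList G ↔ G.Adj p.1 p.2 ∧ Fintype.equivFin V p.1 < Fintype.equivFin V p.2 := by
  simp [edgeList]

lemma edgeList_nodup (G : SimpleGraph V) [DecidableRel G.Adj] : (edgeList G).Nodup :=
  Finset.nodup_toList _

lemma edgeList_ne (G : SimpleGraph V) [DecidableRel G.Adj] : ∀ p ∈ edgeList G, p.1 ≠ p.2 := by
  intro p hp
  exact ((mem_edgeList G p).mp hp).1.ne

/-- The weighted edge list (all weights `1`). -/
noncomputable def wList (G : SimpleGraph V) [DecidableRel G.Adj] : List ((V × V) × ℝ) :=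
  (edgeList G).map (fun e => (e, (1 : ℝ)))

/-- The matching-type polynomial evaluated at a diagonal. -/
noncomputable def fG (G : SimpleGraph V) [DecidableRel G.Adj] (δ : V → ℝ) (U : Finset V) : ℝ :=
  Fav (wList G) (Matrix.diagonal δ) U

lemma Fav_empty (l : List ((V × V) × ℝ)) (M : Matrix V V ℝ) : Fav l M ∅ = 1 := by
  induction l with
  | nil => exact Dm_empty M
  | cons p l ih =>
    obtain ⟨e, w⟩ := p
    rw [Fav_cons, ih]; simp

lemma fG_empty (G : SimpleGraph V) [DecidableRel G.Adj] (δ : V → ℝ) : fG G δ ∅ = 1 :=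
  Fav_empty _ _

lemma fG_rec (G : SimpleGraph V) [DecidableRel G.Adj] (δ : V → ℝ) (U : Finset V) (v : V)
    (hv : v ∈ U) :
    fG G δ U = δ v * fG G δ (U.erase v) -
      ∑ u ∈ U.filter (fun u => G.Adj v u), fG G δ ((U.erase v).erase u) := by
  unfold fG
  rw [Fav_diag_rec δ (wList G) ?_ U v hv]
  · congr 1
    have hl : (List.map (term (Matrix.diagonal δ) (wList G) U v) (wList G)).sum =
        (List.map (fun e => term (Matrix.diagonal δ) (wList G) U v (e, 1)) (edgeList G)).sum := by
      conv_lhs => rw [show wList G = (edgeList G).map (fun e => (e, (1 : ℝ))) from rfl]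
      rw [List.map_map]
      rfl
    rw [hl]
    unfold term
    generalize Fav (wList G) (Matrix.diagonal δ) = F
    unfold edgeList
    rw [Finset.sum_map_toList]
    simp only [one_mul]
    rw [← Finset.sum_filter]
    set r := Fintype.equivFin V with hr
    refine Finset.sum_nbij' (fun p => if p.1 = v then p.2 else p.1)
      (fun u => if r v < r u then (v, u) else (u, v)) ?_ ?_ ?_ ?_ ?_
    · intro p hp
      simp only [Finset.mem_filter, Finset.mem_univ, true_and] at hp ⊢
      obtain ⟨⟨hadj, hlt⟩, hor, h1, h2⟩ := hp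
      by_cases h : p.1 = v
      · rw [if_pos h]
        exact ⟨h2, by rw [← h]; exact hadj⟩
      · rw [if_neg h]
        have h' : p.2 = v := hor.resolve_left h
        exact ⟨h1, by rw [← h']; exact hadj.symm⟩
    · intro u hu
      simp only [Finset.mem_filter, Finset.mem_univ, true_and] at hu ⊢
      by_cases h : r v < r u
      · simp only [if_pos h]
        exact ⟨⟨hu.2, h⟩, Or.inl trivial, hv, hu.1⟩
      · simp only [if_neg h]
        have hne : r u ≠ r v := fun hh => hu.2.ne (r.injective hh.symm)
        exact ⟨⟨hu.2.symm, lt_of_le_of_ne (not_lt.mp h) hne⟩, Or.inr trivial, hu.1, hv⟩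
    · intro p hp
      simp only [Finset.mem_filter, Finset.mem_univ, true_and] at hp
      obtain ⟨⟨hadj, hlt⟩, hor, h1, h2⟩ := hp
      by_cases h : p.1 = v
      · simp only [if_pos h]
        rw [← h, if_pos hlt]
      · simp only [if_neg h]
        have h' : p.2 = v := hor.resolve_left h
        rw [← h', if_neg (not_lt.mpr hlt.le)]
    · intro u hu
      simp only [Finset.mem_filter] at hu
      by_cases h : r v < r u
      · simp [h]
      · simp only [if_neg h]
        rw [if_neg hu.2.ne']
    · intro p hp
      simp only [Finset.mem_filter, Finset.mem_univ, true_and] at hp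
      obtain ⟨⟨hadj, hlt⟩, hor, h1, h2⟩ := hp
      by_cases h : p.1 = v
      · rw [if_pos h, h]
      · have h' : p.2 = v := hor.resolve_left h
        rw [if_neg h, h', Finset.erase_right_comm]
  · intro p hp
    obtain ⟨e, he, rfl⟩ := List.mem_map.mp hp
    exact edgeList_ne G e he

/-! ### Threads -/

/-- `p 0, …, p (k-1)` is a path of distinct vertices of degree two. -/
def IsThread (G : SimpleGraph V) [DecidableRel G.Adj] (k : ℕ) (p : ℕ → V) : Prop :=
  (∀ i < k, G.degree (p i) = 2) ∧ (∀ i < k, ∀ j < k, p i = p j → i = j) ∧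
  (∀ i, i + 1 < k → G.Adj (p i) (p (i + 1)))

/-- A thread of length `k` inside `U` starting at `v`. -/
def ThreadIn (G : SimpleGraph V) [DecidableRel G.Adj] (k : ℕ) (U : Finset V) (v : V) : Prop :=
  ∃ p : ℕ → V, IsThread G k p ∧ p 0 = v ∧ ∀ i < k, p i ∈ U

lemma threadIn_cons (G : SimpleGraph V) [DecidableRel G.Adj] (k : ℕ) (hk : 0 < k) (U : Finset V)
    (v v' : V) (hv : v ∈ U) (hd : G.degree v = 2) (hadj : G.Adj v v')
    (h : ThreadIn G k (U.erase v) v') : ThreadIn G (k + 1) U v := by
  obtain ⟨p, ⟨h1, h2, h3⟩, h4, h5⟩ := h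
  refine ⟨fun i => if i = 0 then v else p (i - 1), ⟨?_, ?_, ?_⟩, by simp, ?_⟩
  · intro i hi
    change G.degree (if i = 0 then v else p (i - 1)) = 2
    by_cases h0 : i = 0
    · rw [if_pos h0]; exact hd
    · rw [if_neg h0]; exact h1 _ (by omega)
  · intro i hi j hj hij
    by_cases hi0 : i = 0 <;> by_cases hj0 : j = 0
    · omega
    · simp only [if_pos hi0, if_neg hj0] at hij
      have := h5 (j - 1) (by omega)
      rw [← hij] at this
      simp at this
    · simp only [if_neg hi0, if_pos hj0] at hij
      have := h5 (i - 1) (by omega)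
      rw [hij] at this
      simp at this
    · simp only [if_neg hi0, if_neg hj0] at hij
      have := h2 _ (by omega) _ (by omega) hij
      omega
  · intro i hi
    by_cases hi0 : i = 0
    · subst hi0
      simp only [if_true]
      simpa [h4] using hadj
    · simp only [if_neg hi0, if_neg (Nat.succ_ne_zero i)]
      have := h3 (i - 1) (by omega)
      have he : i - 1 + 1 = i + 1 - 1 := by omega
      rw [he] at this
      exact this
  · intro i hi
    by_cases hi0 : i = 0
    · simp [hi0, hv]
    · simp only [if_neg hi0]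
      exact Finset.mem_of_mem_erase (h5 _ (by omega))

lemma threadIn_one (G : SimpleGraph V) [DecidableRel G.Adj] (U : Finset V)
    (v : V) (hv : v ∈ U) (hd : G.degree v = 2) : ThreadIn G 1 U v := by
  refine ⟨fun _ => v, ⟨fun _ _ => hd, ?_, ?_⟩, rfl, fun _ _ => hv⟩
  · intro i hi j hj _; omega
  · intro i hi; omega

/-- A common estimate: from ratio bounds at the neighbours. -/
lemma fG_ge (G : SimpleGraph V) [DecidableRel G.Adj] (δ : V → ℝ) (U : Finset V) (v : V)
    (hv : v ∈ U) (c : ℝ)
    (hc : ∀ u ∈ U.filter (fun u => G.Adj v u),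
      fG G δ ((U.erase v).erase u) ≤ c * fG G δ (U.erase v)) :
    (δ v - ((U.filter (fun u => G.Adj v u)).card : ℝ) * c) * fG G δ (U.erase v) ≤ fG G δ U := by
  rw [fG_rec G δ U v hv]
  have := Finset.sum_le_sum hc
  rw [Finset.sum_const, nsmul_eq_mul] at this
  nlinarith

lemma card_nbrs_le (G : SimpleGraph V) [DecidableRel G.Adj] (U : Finset V) (v : V) :
    (U.filter (fun u => G.Adj v u)).card ≤ G.degree v := by
  rw [← G.card_neighborFinset_eq_degree]
  apply Finset.card_le_card
  intro u hu
  rw [SimpleGraph.mem_neighborFinset]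
  exact (Finset.mem_filter.mp hu).2

lemma card_nbrs_le_sub_one (G : SimpleGraph V) [DecidableRel G.Adj] (U : Finset V) (v w : V)
    (hw : G.Adj v w) (hwU : w ∉ U) :
    (U.filter (fun u => G.Adj v u)).card + 1 ≤ G.degree v := by
  rw [← G.card_neighborFinset_eq_degree]
  have h1 : insert w (U.filter (fun u => G.Adj v u)) ⊆ G.neighborFinset v := by
    intro u hu
    rw [SimpleGraph.mem_neighborFinset]
    rcases Finset.mem_insert.mp hu with rfl | hu
    · exact hw
    · exact (Finset.mem_filter.mp hu).2
  have h2 : w ∉ U.filter (fun u => G.Adj v u) := fun h => hwU (Finset.mem_filter.mp h).1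
  rw [← Finset.card_insert_of_notMem h2]
  exact Finset.card_le_card h1

/-- Lower bound for graphs of minimum degree at least two, in terms of thread lengths. -/
theorem bound_thread (G : SimpleGraph V) [DecidableRel G.Adj] (hdeg : ∀ v, 2 ≤ G.degree v)
    (T : ℕ) (hT : ∀ p, ¬ IsThread G (T + 1) p) (x : ℝ) (hx : x ≤ 1 / (16 * ((T : ℝ) + 1) ^ 2)) :
    ∀ U : Finset V, 0 < fG G (fun v => (G.degree v : ℝ) - x) U ∧
      ∀ v ∈ U, (∃ w, G.Adj v w ∧ w ∉ U) → ∀ k ≤ T, ¬ ThreadIn G (k + 1) U v →
        (1 + 1 / (2 * ((T : ℝ) + 1) + 2 * k)) * fG G (fun v => (G.degree v : ℝ) - x) (U.erase v) ≤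
          fG G (fun v => (G.degree v : ℝ) - x) U := by
  set δ : V → ℝ := fun v => (G.degree v : ℝ) - x with hδ
  set L : ℝ := (T : ℝ) + 1 with hL
  have hL1 : 1 ≤ L := by rw [hL]; have : (0 : ℝ) ≤ T := Nat.cast_nonneg T; linarith
  have hTL : (T : ℝ) = L - 1 := by rw [hL]; ring
  have hLsq : 0 < L ^ 2 := by positivity
  have hx16 : x ≤ 1 / 16 := by
    refine hx.trans ?_
    apply one_div_le_one_div_of_le (by norm_num)
    nlinarith
  intro U
  induction U using Finset.strongInduction with
  | H U ih =>
    set Y : ℝ := 4 * L - 2 with hY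
    have hY2 : 2 ≤ Y := by rw [hY]; linarith
    -- generic neighbour bound
    have hnb : ∀ v ∈ U, ∀ u ∈ U.filter (fun u => G.Adj v u),
        fG G δ ((U.erase v).erase u) ≤ (Y / (Y + 1)) * fG G δ (U.erase v) := by
      intro v hv u hu
      obtain ⟨huU, hadj⟩ := Finset.mem_filter.mp hu
      have hsub : U.erase v ⊂ U := Finset.erase_ssubset hv
      have hu' : u ∈ U.erase v := Finset.mem_erase.mpr ⟨hadj.ne', huU⟩
      have := (ih _ hsub).2 u hu' ⟨v, hadj.symm, by simp⟩ T le_rfl
        (fun ⟨p, hp, _⟩ => hT p hp)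
      have hYT : 2 * L + 2 * (T : ℝ) = Y := by rw [hTL, hY]; ring
      rw [hYT] at this
      have h1 : (1 + 1 / Y) = (Y + 1) / Y := by field_simp
      rw [h1] at this
      rw [div_mul_eq_mul_div, le_div_iff₀ (by linarith)]
      rw [div_mul_eq_mul_div, div_le_iff₀ (by linarith)] at this
      linarith
    have hratio : ∀ v ∈ U, (∃ w, G.Adj v w ∧ w ∉ U) → ∀ k ≤ T, ¬ ThreadIn G (k + 1) U v →
        (1 + 1 / (2 * L + 2 * k)) * fG G δ (U.erase v) ≤ fG G δ U := by
      rintro v hv ⟨w, hw, hwU⟩ k hkT hthr
      have hFv : 0 < fG G δ (U.erase v) := (ih _ (Finset.erase_ssubset hv)).1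
      have hcard := card_nbrs_le_sub_one G U v w hw hwU
      have hkT' : (k : ℝ) ≤ L - 1 := by rw [← hTL]; exact_mod_cast hkT
      have hk0 : (0 : ℝ) ≤ k := Nat.cast_nonneg k
      rcases Nat.lt_or_ge (G.degree v) 3 with h3 | h3
      · have hd2 : G.degree v = 2 := le_antisymm (by omega) (hdeg v)
        have hδv : δ v = 2 - x := by simp [hδ, hd2]
        rcases Nat.eq_zero_or_pos k with hk | hk
        · subst hk
          exact absurd (threadIn_one G U v hv hd2) hthr
        · obtain ⟨k', rfl⟩ : ∃ k', k = k' + 1 := ⟨k - 1, by omega⟩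
          have hk'0 : (0 : ℝ) ≤ k' := Nat.cast_nonneg k'
          push_cast at hkT' ⊢
          rcases (U.filter (fun u => G.Adj v u)).eq_empty_or_nonempty with hemp | ⟨u, hu⟩
          · rw [fG_rec G δ U v hv, hemp, Finset.sum_empty, sub_zero, hδv]
            apply mul_le_mul_of_nonneg_right _ hFv.le
            have : 1 / (2 * L + 2 * ((k' : ℝ) + 1)) ≤ 1 / 4 :=
              one_div_le_one_div_of_le (by norm_num) (by linarith)
            linarith
          · have hc1 : (U.filter (fun u => G.Adj v u)).card = 1 := by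
              have : 0 < (U.filter (fun u => G.Adj v u)).card := Finset.card_pos.mpr ⟨u, hu⟩
              omega
            obtain ⟨huU, hadj⟩ := Finset.mem_filter.mp hu
            have hu' : u ∈ U.erase v := Finset.mem_erase.mpr ⟨hadj.ne', huU⟩
            have hthr' : ¬ ThreadIn G (k' + 1) (U.erase v) u := fun h =>
              hthr (threadIn_cons G (k' + 1) (by omega) U v u hv hd2 hadj h)
            have hr := (ih _ (Finset.erase_ssubset hv)).2 u hu' ⟨v, hadj.symm, by simp⟩ k'
              (by omega) hthr'
            set Y' : ℝ := 2 * L + 2 * (k' : ℝ) with hY'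
            have hY'2 : 2 ≤ Y' := by rw [hY']; linarith
            have hY'le : Y' + 2 ≤ 4 * L := by rw [hY']; linarith
            have hc : ∀ u' ∈ U.filter (fun u => G.Adj v u),
                fG G δ ((U.erase v).erase u') ≤ (Y' / (Y' + 1)) * fG G δ (U.erase v) := by
              intro u' hu'2
              obtain ⟨u0, hu0⟩ := Finset.card_eq_one.mp hc1
              rw [hu0, Finset.mem_singleton] at hu hu'2
              rw [hu'2, ← hu]
              have h1 : (1 + 1 / Y') = (Y' + 1) / Y' := by field_simp
              rw [h1] at hr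
              rw [div_mul_eq_mul_div, le_div_iff₀ (by linarith)]
              rw [div_mul_eq_mul_div, div_le_iff₀ (by linarith)] at hr
              linarith
            have hge := fG_ge G δ U v hv _ hc
            refine le_trans ?_ hge
            apply mul_le_mul_of_nonneg_right _ hFv.le
            rw [hc1, hδv]
            have hden : 2 * L + 2 * ((k' : ℝ) + 1) = Y' + 2 := by rw [hY']; ring
            rw [hden]
            have e1 : (2 : ℝ) - x - ((1 : ℕ) : ℝ) * (Y' / (Y' + 1)) = 1 + 1 / (Y' + 1) - x := by
              have : Y' + 1 ≠ 0 := by linarith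
              push_cast
              field_simp
              ring
            rw [e1]
            have e2 : 1 / (Y' + 1) - 1 / (Y' + 2) = 1 / ((Y' + 1) * (Y' + 2)) := by
              have : Y' + 1 ≠ 0 := by linarith
              have : Y' + 2 ≠ 0 := by linarith
              field_simp
              ring
            have e3 : 1 / (16 * L ^ 2) ≤ 1 / ((Y' + 1) * (Y' + 2)) := by
              apply one_div_le_one_div_of_le
              · nlinarith
              · nlinarith
            linarith
      · have hge := fG_ge G δ U v hv _ (hnb v hv)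
        refine le_trans ?_ hge
        apply mul_le_mul_of_nonneg_right _ hFv.le
        have hd3 : (3 : ℝ) ≤ G.degree v := by exact_mod_cast h3
        have hcard' : ((U.filter (fun u => G.Adj v u)).card : ℝ) ≤ (G.degree v : ℝ) - 1 := by
          have : ((U.filter (fun u => G.Adj v u)).card : ℝ) + 1 ≤ (G.degree v : ℝ) := by
            exact_mod_cast hcard
          linarith
        have hc0 : 0 ≤ Y / (Y + 1) := by positivity
        have h1 : ((U.filter (fun u => G.Adj v u)).card : ℝ) * (Y / (Y + 1)) ≤
            ((G.degree v : ℝ) - 1) * (Y / (Y + 1)) := mul_le_mul_of_nonneg_right hcard' hc0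
        have h2 : ((G.degree v : ℝ) - 1) * (Y / (Y + 1)) =
            ((G.degree v : ℝ) - 1) - ((G.degree v : ℝ) - 1) * (1 / (Y + 1)) := by
          have : Y + 1 ≠ 0 := by linarith
          field_simp
          ring
        have h3' : 2 * (1 / (Y + 1)) ≤ ((G.degree v : ℝ) - 1) * (1 / (Y + 1)) :=
          mul_le_mul_of_nonneg_right (by linarith) (by positivity)
        have h4 : 1 / (2 * L + 2 * (k : ℝ)) ≤ 1 / (2 * L) :=
          one_div_le_one_div_of_le (by linarith) (by linarith)
        have h5 : 2 * (1 / (Y + 1)) - 1 / (2 * L) = 1 / (2 * L * (Y + 1)) := by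
          have : Y + 1 ≠ 0 := by linarith
          have : L ≠ 0 := by linarith
          field_simp
          rw [hY]; ring
        have h6 : 1 / (16 * L ^ 2) ≤ 1 / (2 * L * (Y + 1)) := by
          apply one_div_le_one_div_of_le
          · nlinarith
          · rw [hY]; nlinarith
        simp only [hδ]
        linarith
    refine ⟨?_, hratio⟩
    rcases U.eq_empty_or_nonempty with hemp | ⟨v, hv⟩
    · rw [hemp, fG_empty]; norm_num
    · have hFv : 0 < fG G δ (U.erase v) := (ih _ (Finset.erase_ssubset hv)).1
      by_cases hex : ∃ w, G.Adj v w ∧ w ∉ U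
      · have := hratio v hv hex T le_rfl (fun ⟨p, hp, _⟩ => hT p hp)
        refine lt_of_lt_of_le ?_ this
        apply mul_pos _ hFv
        positivity
      · have hge := fG_ge G δ U v hv _ (hnb v hv)
        refine lt_of_lt_of_le ?_ hge
        apply mul_pos _ hFv
        have hcard : ((U.filter (fun u => G.Adj v u)).card : ℝ) ≤ (G.degree v : ℝ) := by
          exact_mod_cast card_nbrs_le G U v
        have hd2 : (2 : ℝ) ≤ G.degree v := by exact_mod_cast hdeg v
        have hc0 : 0 ≤ Y / (Y + 1) := by positivity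
        have h1 : ((U.filter (fun u => G.Adj v u)).card : ℝ) * (Y / (Y + 1)) ≤
            (G.degree v : ℝ) * (Y / (Y + 1)) := mul_le_mul_of_nonneg_right hcard hc0
        have h2 : (G.degree v : ℝ) * (Y / (Y + 1)) =
            (G.degree v : ℝ) - (G.degree v : ℝ) * (1 / (Y + 1)) := by
          have : Y + 1 ≠ 0 := by linarith
          field_simp
          ring
        have h3' : 2 * (1 / (Y + 1)) ≤ (G.degree v : ℝ) * (1 / (Y + 1)) :=
          mul_le_mul_of_nonneg_right hd2 (by positivity)
        have h6 : 1 / (16 * L ^ 2) < 2 * (1 / (Y + 1)) := by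
          rw [mul_one_div, div_lt_div_iff₀ (by positivity) (by linarith), hY]
          nlinarith
        simp only [hδ]
        linarith

/-- Lower bound for graphs of minimum degree at least `d ≥ 3`. -/
theorem bound_degree (G : SimpleGraph V) [DecidableRel G.Adj] (d : ℝ) (hd : 3 ≤ d)
    (hdeg : ∀ v, d ≤ G.degree v) (x : ℝ) (hx : x ≤ (d - 2) ^ 2 / (2 * d)) :
    ∀ U : Finset V, 0 < fG G (fun v => (G.degree v : ℝ) - x) U ∧
      ∀ v ∈ U, (∃ w, G.Adj v w ∧ w ∉ U) →
        (d / 2) * fG G (fun v => (G.degree v : ℝ) - x) (U.erase v) ≤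
          fG G (fun v => (G.degree v : ℝ) - x) U := by
  set δ : V → ℝ := fun v => (G.degree v : ℝ) - x with hδ
  have hx2 : x * (2 * d) ≤ (d - 2) ^ 2 := by
    rwa [le_div_iff₀ (by linarith)] at hx
  intro U
  induction U using Finset.strongInduction with
  | H U ih =>
    have hnb : ∀ v ∈ U, ∀ u ∈ U.filter (fun u => G.Adj v u),
        fG G δ ((U.erase v).erase u) ≤ (2 / d) * fG G δ (U.erase v) := by
      intro v hv u hu
      obtain ⟨huU, hadj⟩ := Finset.mem_filter.mp hu
      have hsub : U.erase v ⊂ U := Finset.erase_ssubset hv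
      have hu' : u ∈ U.erase v := Finset.mem_erase.mpr ⟨hadj.ne', huU⟩
      have := (ih _ hsub).2 u hu' ⟨v, hadj.symm, by simp⟩
      rw [div_mul_eq_mul_div, le_div_iff₀ (by linarith)]
      linarith
    have hratio : ∀ v ∈ U, (∃ w, G.Adj v w ∧ w ∉ U) →
        (d / 2) * fG G δ (U.erase v) ≤ fG G δ U := by
      rintro v hv ⟨w, hw, hwU⟩
      have hFv : 0 < fG G δ (U.erase v) := (ih _ (Finset.erase_ssubset hv)).1
      have hcard := card_nbrs_le_sub_one G U v w hw hwU
      have hge := fG_ge G δ U v hv _ (hnb v hv)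
      refine le_trans ?_ hge
      apply mul_le_mul_of_nonneg_right _ hFv.le
      have hcard' : ((U.filter (fun u => G.Adj v u)).card : ℝ) ≤ (G.degree v : ℝ) - 1 := by
        have : ((U.filter (fun u => G.Adj v u)).card : ℝ) + 1 ≤ (G.degree v : ℝ) := by
          exact_mod_cast hcard
        linarith
      have h1 : ((U.filter (fun u => G.Adj v u)).card : ℝ) * (2 / d) ≤
          ((G.degree v : ℝ) - 1) * (2 / d) := mul_le_mul_of_nonneg_right hcard' (by positivity)
      have hdv := hdeg v
      have h2 : d / 2 ≤ (G.degree v : ℝ) - x - ((G.degree v : ℝ) - 1) * (2 / d) := by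
        have hd0 : (0 : ℝ) < d := by linarith
        have h3 : (G.degree v : ℝ) - x - ((G.degree v : ℝ) - 1) * (2 / d) =
            ((G.degree v : ℝ) * d - x * d - ((G.degree v : ℝ) - 1) * 2) / d := by
          field_simp
        rw [h3, le_div_iff₀ hd0]
        nlinarith
      simp only [hδ]
      linarith
    refine ⟨?_, hratio⟩
    rcases U.eq_empty_or_nonempty with hemp | ⟨v, hv⟩
    · rw [hemp, fG_empty]; norm_num
    · have hFv : 0 < fG G δ (U.erase v) := (ih _ (Finset.erase_ssubset hv)).1
      by_cases hex : ∃ w, G.Adj v w ∧ w ∉ U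
      · have := hratio v hv hex
        refine lt_of_lt_of_le ?_ this
        apply mul_pos _ hFv
        linarith
      · have hge := fG_ge G δ U v hv _ (hnb v hv)
        refine lt_of_lt_of_le ?_ hge
        apply mul_pos _ hFv
        have hcard : ((U.filter (fun u => G.Adj v u)).card : ℝ) ≤ (G.degree v : ℝ) := by
          exact_mod_cast card_nbrs_le G U v
        have h1 : ((U.filter (fun u => G.Adj v u)).card : ℝ) * (2 / d) ≤
            (G.degree v : ℝ) * (2 / d) := mul_le_mul_of_nonneg_right hcard (by positivity)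
        have hdv := hdeg v
        have h2 : 0 < (G.degree v : ℝ) - x - (G.degree v : ℝ) * (2 / d) := by
          have hd0 : (0 : ℝ) < d := by linarith
          have h3 : (G.degree v : ℝ) - x - (G.degree v : ℝ) * (2 / d) =
              ((G.degree v : ℝ) * d - x * d - (G.degree v : ℝ) * 2) / d := by
            field_simp
          rw [h3]
          apply div_pos _ hd0
          nlinarith
        simp only [hδ]
        linarith

end Pool.Agent.H.MP_8e2f96_co
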