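import Mathlib
import Pool.Agent.H.MP_8e2f96_co.Bound

set_option autoImplicit false
set_option linter.unusedSectionVars false

/-!
# Upper bounds for the second smallest Laplacian eigenvalue
-/

namespace Pool.Agent.H.MP_8e2f96_co

open Matrix Finset

variable {V : Type*} [Fintype V] [DecidableEq V]

/-- Parseval for the eigenvector basis, in terms of dot products. -/
lemma parseval {A : Matrix V V ℝ} (hA : A.IsHermitian) (x y : V → ℝ) :
    ∑ j, (dotProduct (⇑(hA.eigenvectorBasis j)) x) * (dotProduct (⇑(hA.eigenvectorBasis j)) y) =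
      dotProduct x y := by
  have h := (hA.eigenvectorBasis).sum_inner_mul_inner (WithLp.toLp 2 x) (WithLp.toLp 2 y)
  have e1 : ∀ u v : V → ℝ, inner ℝ (WithLp.toLp 2 u) (WithLp.toLp 2 v) = dotProduct u v := by
    intro u v
    simp [EuclideanSpace.inner_eq_star_dotProduct, dotProduct_comm]
  rw [e1] at h
  rw [← h]
  apply Finset.sum_congr rfl
  intro j _
  have e2 : inner ℝ (WithLp.toLp 2 x) (hA.eigenvectorBasis j) =
      dotProduct (⇑(hA.eigenvectorBasis j)) x := by
    simp [EuclideanSpace.inner_eq_star_dotProduct, dotProduct_comm]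
  have e3 : inner ℝ (hA.eigenvectorBasis j) (WithLp.toLp 2 y) =
      dotProduct (⇑(hA.eigenvectorBasis j)) y := by
    simp [EuclideanSpace.inner_eq_star_dotProduct, dotProduct_comm]
  rw [e2, e3]

lemma dot_eig {A : Matrix V V ℝ} (hA : A.IsHermitian) (x : V → ℝ) (j : V) :
    dotProduct (⇑(hA.eigenvectorBasis j)) (A.mulVec x) =
      hA.eigenvalues j * dotProduct (⇑(hA.eigenvectorBasis j)) x := by
  have h1 := hA.mulVec_eigenvectorBasis j
  rw [Matrix.dotProduct_mulVec, ← Matrix.mulVec_transpose]
  have hT : Aᵀ = A := by simpa [Matrix.IsHermitian] using hA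
  rw [hT, h1, smul_dotProduct]
  simp

/-- Rayleigh quotient bound for the second smallest eigenvalue of a symmetric matrix killing a
vector `u ≠ 0`. -/
theorem second_le {A : Matrix V V ℝ} (hA : A.IsHermitian) (h2 : 2 ≤ Fintype.card V)
    (u : V → ℝ) (hu : u ≠ 0) (hAu : A.mulVec u = 0) (f : V → ℝ)
    (hfu : dotProduct u f = 0) (c : ℝ) (hc : 0 ≤ c) (hf : f ≠ 0)
    (hfc : dotProduct f (A.mulVec f) ≤ c * dotProduct f f) :
    hA.eigenvalues₀ ⟨Fintype.card V - 2, by omega⟩ ≤ c := by
  set lam := hA.eigenvalues₀ ⟨Fintype.card V - 2, by omega⟩ with hlam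
  by_contra hcon
  push Not at hcon
  have hlampos : 0 < lam := lt_of_le_of_lt hc hcon
  -- the index of the smallest eigenvalue
  set eq := (Fintype.equivOfCardEq (Fintype.card_fin (Fintype.card V)) :
    Fin (Fintype.card V) ≃ V) with heq
  set j0 : V := eq ⟨Fintype.card V - 1, by omega⟩ with hj0
  have hge : ∀ j, j ≠ j0 → lam ≤ hA.eigenvalues j := by
    intro j hj
    unfold Matrix.IsHermitian.eigenvalues
    apply hA.eigenvalues₀_antitone
    rw [Fin.le_def]
    have hlt := ((Fintype.equivOfCardEq (Fintype.card_fin (Fintype.card V)) :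
      Fin (Fintype.card V) ≃ V).symm j).2
    have hne : ((Fintype.equivOfCardEq (Fintype.card_fin (Fintype.card V)) :
      Fin (Fintype.card V) ≃ V).symm j).1 ≠ Fintype.card V - 1 := by
      intro h
      apply hj
      rw [hj0, ← Equiv.symm_apply_eq]
      apply Fin.ext
      exact h
    simp only
    omega
  -- any vector orthogonal to `b j0` has large Rayleigh quotient
  have hray : ∀ g : V → ℝ, dotProduct (⇑(hA.eigenvectorBasis j0)) g = 0 →
      lam * dotProduct g g ≤ dotProduct g (A.mulVec g) := by
    intro g hg
    rw [← parseval hA g g, ← parseval hA g (A.mulVec g), Finset.mul_sum]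
    apply Finset.sum_le_sum
    intro j _
    rw [dot_eig]
    by_cases hj : j = j0
    · subst hj; rw [hg]; simp
    · have := hge j hj
      have hsq : 0 ≤ (dotProduct (⇑(hA.eigenvectorBasis j)) g) *
        (dotProduct (⇑(hA.eigenvectorBasis j)) g) := mul_self_nonneg _
      nlinarith
  have hpos : ∀ g : V → ℝ, g ≠ 0 → 0 < dotProduct g g := by
    intro g hg
    have h0 : 0 ≤ dotProduct g g := by
      apply Finset.sum_nonneg; intro i _; exact mul_self_nonneg _
    rcases h0.lt_or_eq with h | h
    · exact h
    · exact absurd (dotProduct_self_eq_zero.mp h.symm) hg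
  set a := dotProduct (⇑(hA.eigenvectorBasis j0)) u with ha
  set b := dotProduct (⇑(hA.eigenvectorBasis j0)) f with hb
  by_cases ha0 : a = 0
  · have := hray u ha0
    rw [hAu, dotProduct_zero] at this
    have := hpos u hu
    nlinarith
  · set g : V → ℝ := b • u - a • f with hg
    have hgo : dotProduct (⇑(hA.eigenvectorBasis j0)) g = 0 := by
      rw [hg, dotProduct_sub, dotProduct_smul, dotProduct_smul, ← ha, ← hb]
      simp [mul_comm]
    have h1 := hray g hgo
    have hAg : A.mulVec g = -(a • A.mulVec f) := by
      rw [hg, Matrix.mulVec_sub, Matrix.mulVec_smul, Matrix.mulVec_smul, hAu]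
      simp
    have huAf : dotProduct u (A.mulVec f) = 0 := by
      rw [Matrix.dotProduct_mulVec, ← Matrix.mulVec_transpose]
      have hT : Aᵀ = A := by simpa [Matrix.IsHermitian] using hA
      rw [hT, hAu, zero_dotProduct]
    have hgAg : dotProduct g (A.mulVec g) = a ^ 2 * dotProduct f (A.mulVec f) := by
      rw [hAg, hg]
      simp only [dotProduct_neg, sub_dotProduct, smul_dotProduct, dotProduct_smul, smul_eq_mul,
        huAf]
      ring
    have hgg : dotProduct g g = b ^ 2 * dotProduct u u + a ^ 2 * dotProduct f f := by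
      have hfu' : dotProduct f u = 0 := by rw [dotProduct_comm]; exact hfu
      rw [hg]
      simp only [sub_dotProduct, dotProduct_sub, smul_dotProduct, dotProduct_smul, smul_eq_mul,
        hfu, hfu']
      ring
    rw [hgAg, hgg] at h1
    have hff := hpos f hf
    have huu := hpos u hu
    have ha2 : 0 < a ^ 2 := by positivity
    have hb2 : 0 ≤ b ^ 2 := by positivity
    have h3 : a ^ 2 * dotProduct f (A.mulVec f) ≤ a ^ 2 * (c * dotProduct f f) :=
      mul_le_mul_of_nonneg_left hfc ha2.le
    have h4 : 0 ≤ lam * (b ^ 2 * dotProduct u u) := by positivity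
    have h5 : 0 < a ^ 2 * dotProduct f f := by positivity
    nlinarith

/-- The spectral gap: the second smallest eigenvalue of the combinatorial Laplacian. -/
lemma card_ge_three (G : SimpleGraph V) [DecidableRel G.Adj] [Nonempty V]
    (hdeg : ∀ x, 2 ≤ G.degree x) : 3 ≤ Fintype.card V := by
  obtain ⟨v⟩ := ‹Nonempty V›
  have := G.degree_lt_card_verts v
  have := hdeg v
  omega

theorem lap_second_le_degree (G : SimpleGraph V) [DecidableRel G.Adj] (h2 : 2 ≤ Fintype.card V)
    (h3 : 3 ≤ Fintype.card V) (v : V) :
    (G.isHermitian_lapMatrix (R := ℝ)).eigenvalues₀ ⟨Fintype.card V - 2, by omega⟩ ≤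
      3 / 2 * G.degree v := by
  set n : ℝ := (Fintype.card V : ℝ) with hn
  have hn3 : (3 : ℝ) ≤ n := by rw [hn]; exact_mod_cast h3
  have hV : Nonempty V := ⟨v⟩
  apply second_le (G.isHermitian_lapMatrix (R := ℝ)) h2 (fun _ => (1 : ℝ))
    (f := fun x => (if x = v then (1 : ℝ) else 0) - 1 / n)
  · intro h; have := congrFun h v; simp at this
  · exact G.lapMatrix_mulVec_const_eq_zero
  · simp only [dotProduct, one_mul, Finset.sum_sub_distrib, Finset.sum_ite_eq', Finset.mem_univ,
      if_true, Finset.sum_const, Finset.card_univ, nsmul_eq_mul]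
    rw [← hn]; field_simp; ring
  · positivity
  · intro h
    obtain ⟨w, hw⟩ : ∃ w, w ≠ v := by
      have : 1 < Fintype.card V := by omega
      exact Fintype.exists_ne_of_one_lt_card this v
    have := congrFun h w
    simp only [if_neg hw, zero_sub, Pi.zero_apply, neg_eq_zero] at this
    have : (0:ℝ) < 1 / n := by positivity
    linarith
  · have hf : (fun x => (if x = v then (1 : ℝ) else 0) - 1 / n) =
        (Pi.single v 1 : V → ℝ) - (1 / n) • (fun _ => (1 : ℝ)) := by
      ext x; simp [Pi.single_apply]
    rw [hf, Matrix.mulVec_sub, Matrix.mulVec_smul, G.lapMatrix_mulVec_const_eq_zero, smul_zero,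
      sub_zero]
    have h1 : dotProduct ((Pi.single v 1 : V → ℝ) - (1 / n) • (fun _ => (1 : ℝ)))
        ((G.lapMatrix ℝ).mulVec (Pi.single v 1)) = G.degree v := by
      rw [sub_dotProduct, smul_dotProduct]
      have h2 : dotProduct (fun _ => (1 : ℝ)) ((G.lapMatrix ℝ).mulVec (Pi.single v 1)) = 0 := by
        rw [Matrix.dotProduct_mulVec, ← Matrix.mulVec_transpose, (G.isSymm_lapMatrix (R := ℝ)).eq,
          G.lapMatrix_mulVec_const_eq_zero, zero_dotProduct]
      rw [h2]
      simp [SimpleGraph.lapMatrix, SimpleGraph.degMatrix]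
    have h2 : dotProduct ((Pi.single v 1 : V → ℝ) - (1 / n) • (fun _ => (1 : ℝ)))
        ((Pi.single v 1 : V → ℝ) - (1 / n) • (fun _ => (1 : ℝ))) = 1 - 1 / n := by
      simp only [sub_dotProduct, dotProduct_sub, smul_dotProduct, dotProduct_smul, smul_eq_mul,
        single_dotProduct, dotProduct_single]
      have : dotProduct (fun _ : V => (1 : ℝ)) (fun _ => 1) = n := by
        simp [dotProduct, hn]
      rw [this]
      simp only [Pi.sub_apply, Pi.smul_apply, Pi.single_eq_same, smul_eq_mul]
      field_simp
      ring
    rw [h1, h2]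
    have hd : (0 : ℝ) ≤ G.degree v := Nat.cast_nonneg _
    have : 1 / n ≤ 1 / 3 := one_div_le_one_div_of_le (by norm_num) hn3
    nlinarith

/-- Thread test function. -/
theorem lap_second_le_thread (G : SimpleGraph V) [DecidableRel G.Adj] (h2 : 2 ≤ Fintype.card V)
    (T : ℕ) (hT : 3 ≤ T) (p : ℕ → V) (hp : IsThread G T p) :
    (G.isHermitian_lapMatrix (R := ℝ)).eigenvalues₀ ⟨Fintype.card V - 2, by omega⟩ ≤
      40 / (T : ℝ) ^ 2 := by
  obtain ⟨hdeg, hinj, hadj⟩ := hp
  have hTpos : (0 : ℝ) < T := by
    have : 0 < T := by omega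
    exact_mod_cast this
  set θ : ℝ := 2 * Real.pi / T with hθ
  have hθT : θ * T = 2 * Real.pi := by rw [hθ]; field_simp
  set s : ℕ → ℝ := fun i => Real.sin (θ * ((i : ℝ) + 1)) with hs
  set f : V → ℝ := fun x => ∑ i ∈ Finset.range (T - 1), if p i = x then s i else 0 with hf
  have hsT : s (T - 1) = 0 := by
    simp only [hs]
    have : (((T - 1 : ℕ) : ℝ) + 1) = T := by
      have : T - 1 + 1 = T := by omega
      exact_mod_cast this
    rw [this, hθT, Real.sin_two_pi]
  have hf0 : ∀ x, (∀ j < T - 1, p j ≠ x) → f x = 0 := by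
    intro x hx
    simp only [hf]
    apply Finset.sum_eq_zero
    intro i hi
    rw [if_neg (hx i (Finset.mem_range.mp hi))]
  have hfp : ∀ j < T, f (p j) = s j := by
    intro j hj
    rcases Nat.lt_or_ge j (T - 1) with hj1 | hj1
    · simp only [hf]
      rw [Finset.sum_eq_single j]
      · simp
      · intro i hi hij
        rw [if_neg]
        intro h
        exact hij (hinj i (by have := Finset.mem_range.mp hi; omega) j hj h)
      · intro h; exact absurd (Finset.mem_range.mpr hj1) h
    · have hjT : j = T - 1 := by omega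
      rw [hjT, hsT]
      apply hf0
      intro i hi h
      have := hinj i (by omega) (T - 1) (by omega) h
      omega
  have hdot : ∀ g : V → ℝ, dotProduct f g = ∑ i ∈ Finset.range (T - 1), s i * g (p i) := by
    intro g
    simp only [dotProduct, hf, Finset.sum_mul]
    rw [Finset.sum_comm]
    apply Finset.sum_congr rfl
    intro i _
    rw [Finset.sum_eq_single (p i)]
    · simp
    · intro b _ hb; rw [if_neg (Ne.symm hb), zero_mul]
    · intro h; exact absurd (Finset.mem_univ _) h
  have htrig : ∀ y : ℝ, Real.sin (θ * y) + Real.sin (θ * (y + 2)) =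
      2 * Real.cos θ * Real.sin (θ * (y + 1)) := by
    intro y
    have e1 : θ * y = θ * (y + 1) - θ := by ring
    have e2 : θ * (y + 2) = θ * (y + 1) + θ := by ring
    rw [e1, e2, Real.sin_sub, Real.sin_add]
    ring
  have hL : ∀ i < T - 1, (G.lapMatrix ℝ).mulVec f (p i) = (2 - 2 * Real.cos θ) * s i := by
    intro i hi
    rw [G.lapMatrix_mulVec_apply, hdeg i (by omega), hfp i (by omega)]
    rcases Nat.eq_zero_or_pos i with hi0 | hi0
    · subst hi0
      have h1mem : p 1 ∈ G.neighborFinset (p 0) := by
        rw [SimpleGraph.mem_neighborFinset]; exact hadj 0 (by omega)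
      have hcard : (G.neighborFinset (p 0)).card = 2 := by
        rw [G.card_neighborFinset_eq_degree]; exact hdeg 0 (by omega)
      obtain ⟨w, hw⟩ : ∃ w, (G.neighborFinset (p 0)).erase (p 1) = {w} := by
        rw [← Finset.card_eq_one, Finset.card_erase_of_mem h1mem, hcard]
      have hwmem : w ∈ (G.neighborFinset (p 0)).erase (p 1) := by rw [hw]; simp
      have hw1 : w ≠ p 1 := (Finset.mem_erase.mp hwmem).1
      have hw0 : G.Adj (p 0) w := by
        rw [← SimpleGraph.mem_neighborFinset]; exact (Finset.mem_erase.mp hwmem).2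
      have hfw : f w = 0 := by
        apply hf0
        intro j hj hjw
        rcases Nat.lt_or_ge j 2 with h | h
        · have : j = 0 ∨ j = 1 := by omega
          rcases this with rfl | rfl
          · exact hw0.ne hjw
          · exact hw1 hjw.symm
        · -- p j has three neighbours
          have hcardj : (G.neighborFinset (p j)).card = 2 := by
            rw [G.card_neighborFinset_eq_degree]; exact hdeg j (by omega)
          have hsub : ({p (j - 1), p (j + 1), p 0} : Finset V) ⊆ G.neighborFinset (p j) := by
            intro y hy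
            rw [SimpleGraph.mem_neighborFinset]
            simp only [Finset.mem_insert, Finset.mem_singleton] at hy
            rcases hy with rfl | rfl | rfl
            · have := hadj (j - 1) (by omega)
              rw [show j - 1 + 1 = j by omega] at this
              exact this.symm
            · exact hadj j (by omega)
            · rw [hjw]; exact hw0.symm
          have hcard3 : ({p (j - 1), p (j + 1), p 0} : Finset V).card = 3 := by
            rw [Finset.card_eq_three]
            refine ⟨_, _, _, ?_, ?_, ?_, rfl⟩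
            · intro h; have := hinj _ (by omega) _ (by omega) h; omega
            · intro h; have := hinj _ (by omega) _ (by omega) h; omega
            · intro h; have := hinj _ (by omega) _ (by omega) h; omega
          have := Finset.card_le_card hsub
          omega
      have hsum : ∑ u ∈ G.neighborFinset (p 0), f u = f (p 1) + f w := by
        rw [← Finset.add_sum_erase _ _ h1mem, hw, Finset.sum_singleton]
      rw [hsum, hfw, hfp 1 (by omega)]
      have := htrig 0
      simp only [mul_zero, Real.sin_zero, zero_add, mul_one] at this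
      simp only [hs]
      push_cast
      rw [zero_add, mul_one]
      have h11 : (1 : ℝ) + 1 = 2 := by norm_num
      rw [h11, this]
      ring
    · have hm : p (i - 1) ∈ G.neighborFinset (p i) := by
        rw [SimpleGraph.mem_neighborFinset]
        have := hadj (i - 1) (by omega)
        rw [show i - 1 + 1 = i by omega] at this
        exact this.symm
      have hp' : p (i + 1) ∈ G.neighborFinset (p i) := by
        rw [SimpleGraph.mem_neighborFinset]; exact hadj i (by omega)
      have hne : p (i - 1) ≠ p (i + 1) := by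
        intro h; have := hinj _ (by omega) _ (by omega) h; omega
      have hset : G.neighborFinset (p i) = {p (i - 1), p (i + 1)} := by
        symm
        apply Finset.eq_of_subset_of_card_le
        · intro y hy
          simp only [Finset.mem_insert, Finset.mem_singleton] at hy
          rcases hy with rfl | rfl
          · exact hm
          · exact hp'
        · rw [G.card_neighborFinset_eq_degree, hdeg i (by omega), Finset.card_pair hne]
      rw [hset, Finset.sum_pair hne, hfp (i - 1) (by omega), hfp (i + 1) (by omega)]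
      have := htrig (i : ℝ)
      simp only [hs]
      have e1 : ((i - 1 : ℕ) : ℝ) + 1 = i := by
        have : i - 1 + 1 = i := by omega
        exact_mod_cast this
      have e2 : ((i + 1 : ℕ) : ℝ) + 1 = (i : ℝ) + 2 := by push_cast; ring
      rw [e1, e2, this]
      push_cast
      ring
  have hsum0 : ∑ i ∈ Finset.range (T - 1), s i = 0 := by
    have h1 := Finset.sum_range_reflect s (T - 1)
    have h2' : ∀ i ∈ Finset.range (T - 1), s (T - 1 - 1 - i) = - s i := by
      intro i hi
      have hi' := Finset.mem_range.mp hi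
      simp only [hs]
      have e1 : ((T - 1 - 1 - i : ℕ) : ℝ) + 1 = (T : ℝ) - ((i : ℝ) + 1) := by
        have : (T - 1 - 1 - i) + 1 + (i + 1) = T := by omega
        have h : (((T - 1 - 1 - i) + 1 + (i + 1) : ℕ) : ℝ) = (T : ℝ) := by exact_mod_cast this
        push_cast at h
        linarith
      rw [e1, mul_sub, hθT, Real.sin_two_pi_sub]
    rw [Finset.sum_congr rfl h2', Finset.sum_neg_distrib] at h1
    linarith
  have hs0 : 0 < s 0 := by
    simp only [hs]
    apply Real.sin_pos_of_pos_of_lt_pi
    · have := Real.pi_pos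
      positivity
    · push_cast
      rw [zero_add, mul_one, hθ, div_lt_iff₀ hTpos]
      have h3 : (3 : ℝ) ≤ T := by exact_mod_cast hT
      nlinarith [Real.pi_pos]
  have hcos : 2 - 2 * Real.cos θ ≤ 40 / (T : ℝ) ^ 2 := by
    have h1 := Real.one_sub_sq_div_two_le_cos (x := θ)
    have h3 : θ ^ 2 ≤ 40 / (T : ℝ) ^ 2 := by
      rw [hθ, div_pow]
      apply div_le_div_of_nonneg_right _ (by positivity)
      have := Real.pi_lt_d2
      have := Real.pi_pos
      nlinarith
    linarith
  have hcos0 : 0 ≤ 2 - 2 * Real.cos θ := by linarith [Real.cos_le_one θ]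
  have hV : Nonempty V := ⟨p 0⟩
  refine le_trans (second_le (G.isHermitian_lapMatrix (R := ℝ)) h2 (fun _ => (1 : ℝ)) ?_
    G.lapMatrix_mulVec_const_eq_zero f ?_ (2 - 2 * Real.cos θ) hcos0 ?_ ?_) hcos
  · intro h; have := congrFun h (p 0); simp at this
  · rw [dotProduct_comm, hdot]
    simpa using hsum0
  · intro h
    have := congrFun h (p 0)
    rw [hfp 0 (by omega)] at this
    simp only [Pi.zero_apply] at this
    linarith
  · rw [hdot, hdot, Finset.mul_sum]
    apply Finset.sum_le_sum
    intro i hi
    have hi' := Finset.mem_range.mp hi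
    rw [hL i hi', hfp i (by omega)]
    apply le_of_eq
    ring

end Pool.Agent.H.MP_8e2f96_co
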