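import Mathlib
import Pool.Agent.H.MP_8e2f96_co.Fav

set_option autoImplicit false
set_option linter.unusedSectionVars false

/-!
# Stability of the expected principal minors, and selection of a good signing
-/

namespace Pool.Agent.H.MP_8e2f96_co

open Matrix Finset

variable {V : Type*} [Fintype V] [DecidableEq V]

/-- A Hermitian matrix plus a diagonal matrix with entries in the open upper half plane has
nonzero principal minors. -/
lemma Dm_ne_zero (X : Matrix V V ℂ) (hX : X.IsHermitian) (z : V → ℂ) (hz : ∀ i, 0 < (z i).im)
    (U : Finset V) : Dm (X + Matrix.diagonal z) U ≠ 0 := by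
  intro h0
  obtain ⟨v, hv, hMv⟩ := Matrix.exists_mulVec_eq_zero_iff.mpr h0
  -- `v` is supported on `U`
  have hout : ∀ i, i ∉ U → v i = 0 := by
    intro i hi
    have := congrFun hMv i
    simp only [Matrix.mulVec, dotProduct, rowRes, Matrix.of_apply, if_neg hi, Pi.zero_apply] at this
    simpa [Matrix.one_apply] using this
  have hin : ∀ i, i ∈ U → (∑ j, X i j * v j) + z i * v i = 0 := by
    intro i hi
    have := congrFun hMv i
    simp only [Matrix.mulVec, dotProduct, rowRes, Matrix.of_apply, if_pos hi, Pi.zero_apply,
      Matrix.add_apply, add_mul, Finset.sum_add_distrib] at this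
    rw [← this]
    congr 1
    rw [Finset.sum_eq_single i]
    · simp
    · intro j _ hj; simp [Matrix.diagonal_apply_ne' _ hj]
    · simp
  -- quadratic form
  have hq : (∑ i, ∑ j, star (v i) * (X i j * v j)) + ∑ i, z i * (star (v i) * v i) = 0 := by
    rw [← Finset.sum_add_distrib]
    apply Finset.sum_eq_zero
    intro i _
    by_cases hi : i ∈ U
    · have := hin i hi
      rw [← Finset.mul_sum]
      linear_combination (star (v i)) * this
    · simp [hout i hi]
  have hreal : (∑ i, ∑ j, star (v i) * (X i j * v j)).im = 0 := by
    have hconj : star (∑ i, ∑ j, star (v i) * (X i j * v j)) =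
        ∑ i, ∑ j, star (v i) * (X i j * v j) := by
      rw [star_sum]
      simp_rw [star_sum, star_mul', star_star]
      rw [Finset.sum_comm]
      apply Finset.sum_congr rfl; intro i _
      apply Finset.sum_congr rfl; intro j _
      have : star (X j i) = X i j := by
        have := congrFun (congrFun hX i) j
        simpa [Matrix.conjTranspose_apply] using this
      rw [this]; ring
    have := Complex.conj_eq_iff_im.mp hconj
    exact this
  have him := congrArg Complex.im hq
  rw [Complex.add_im, hreal, zero_add, Complex.im_sum, Complex.zero_im] at him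
  have hterm : ∀ i, (z i * (star (v i) * v i)).im = (z i).im * Complex.normSq (v i) := by
    intro i
    have : star (v i) * v i = ((Complex.normSq (v i) : ℝ) : ℂ) := by
      rw [mul_comm]; exact Complex.mul_conj (v i)
    rw [this, Complex.mul_im]
    simp
  simp_rw [hterm] at him
  have hnn : ∀ i ∈ Finset.univ, 0 ≤ (z i).im * Complex.normSq (v i) := fun i _ =>
    mul_nonneg (hz i).le (Complex.normSq_nonneg _)
  have hall := (Finset.sum_eq_zero_iff_of_nonneg hnn).mp him
  apply hv
  ext i
  have := hall i (Finset.mem_univ i)
  rcases mul_eq_zero.mp this with h | h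
  · exact absurd h (hz i).ne'
  · simpa using Complex.normSq_eq_zero.mp h

lemma diag_update (X : Matrix V V ℂ) (z : V → ℂ) (u : V) (t : ℂ) :
    X + Matrix.diagonal (Function.update z u (z u + t)) =
      X + Matrix.diagonal z + t • Matrix.single u u 1 := by
  ext i j
  by_cases hij : i = j
  · subst hij
    by_cases hi : i = u
    · subst hi; simp; ring
    · simp [hi, Matrix.single_apply, Ne.symm hi]
  · simp [hij, Matrix.single_apply]
    intro h1 h2; exact absurd (h1.symm.trans h2) hij

/-- Stability of the expected principal minors. -/
theorem Fav_ne_zero (X : Matrix V V ℂ) (hX : X.IsHermitian) (l : List ((V × V) × ℝ))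
    (hl : ∀ p ∈ l, 0 ≤ p.2) (hne : ∀ p ∈ l, p.1.1 ≠ p.1.2) :
    ∀ (U : Finset V) (z : V → ℂ), (∀ i, 0 < (z i).im) → Fav l (X + Matrix.diagonal z) U ≠ 0 := by
  induction l with
  | nil => exact fun U z hz => Dm_ne_zero X hX z hz U
  | cons p l ih =>
    obtain ⟨⟨u, v⟩, w⟩ := p
    have ih' := ih (fun p hp => hl p (List.mem_cons_of_mem _ hp))
      (fun p hp => hne p (List.mem_cons_of_mem _ hp))
    have hw : 0 ≤ w := hl ((u, v), w) (by simp)
    have huv : u ≠ v := hne ((u, v), w) (by simp)
    intro U z hz
    rw [Fav_cons]
    by_cases he : u ∈ U ∧ v ∈ U
    · rw [if_pos he]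
      intro h0
      set M := X + Matrix.diagonal z with hM
      set A := Fav l M (U.erase u) with hA
      set B := Fav l M ((U.erase u).erase v) with hB
      have hA0 : A ≠ 0 := ih' _ z hz
      have hB0 : B ≠ 0 := ih' _ z hz
      have hvmem : v ∈ U.erase u := by simp [huv.symm, he.2]
      -- Im (A / B) > 0
      have him : 0 < (A / B).im := by
        by_contra hcon
        push Not at hcon
        have hz' : ∀ i, 0 < (Function.update z v (z v + -(A / B)) i).im := by
          intro i
          by_cases hi : i = v
          · subst hi
            simp only [Function.update_self, Complex.add_im, Complex.neg_im]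
            have := hz i
            linarith
          · rw [Function.update_of_ne hi]; exact hz i
        have := ih' (U.erase u) _ hz'
        rw [diag_update, ← hM, Fav_add_diag l M _ v _ hvmem, ← hA, ← hB] at this
        apply this
        field_simp
        ring
      have him2 : (B / A).im ≤ 0 := by
        have : B / A = (A / B)⁻¹ := by rw [inv_div]
        rw [this, Complex.inv_im]
        apply div_nonpos_of_nonpos_of_nonneg
        · linarith
        · exact Complex.normSq_nonneg _
      have hz' : ∀ i, 0 < (Function.update z u (z u + -((w : ℂ) * (B / A))) i).im := by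
        intro i
        by_cases hi : i = u
        · subst hi
          simp only [Function.update_self, Complex.add_im, Complex.neg_im, Complex.mul_im,
            Complex.ofReal_re, Complex.ofReal_im, zero_mul, add_zero]
          have := hz i
          nlinarith
        · rw [Function.update_of_ne hi]; exact hz i
      have := ih' U _ hz'
      rw [diag_update, ← hM, Fav_add_diag l M _ u _ he.1, ← hA] at this
      apply this
      have h1 : Fav l M U = (w : ℂ) * B := by
        have := sub_eq_zero.mp h0
        simpa using this
      rw [h1]
      field_simp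
      ring
    · rw [if_neg he, sub_zero]
      exact ih' U z hz

end Pool.Agent.H.MP_8e2f96_co
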