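import Mathlib
import Pool.Agent.H.MP_8e2f96_co.Stab

set_option autoImplicit false
set_option linter.unusedSectionVars false

/-!
# Selection of a good signing
-/

namespace Pool.Agent.H.MP_8e2f96_co

open Matrix Finset Polynomial

variable {V : Type*} [Fintype V] [DecidableEq V]

/-- Averaging identity. -/
lemma Fav_avg {R : Type*} [CommRing R] [Algebra ℝ R] (e : V × V) (he : e.1 ≠ e.2) (w : ℝ)
    (hw : 0 ≤ w) (l : List ((V × V) × ℝ)) (M : Matrix V V R) (U : Finset V) :
    (2 : R) * Fav ((e, w) :: l) M U =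
      Fav l (M + (algebraMap ℝ R (Real.sqrt w)) • Esym e) U +
      Fav l (M + (algebraMap ℝ R (-Real.sqrt w)) • Esym e) U := by
  obtain ⟨K, hK⟩ := Fav_add_edge l M U e he
  rw [hK, hK, Fav_cons]
  have h2 : (algebraMap ℝ R (Real.sqrt w)) ^ 2 = algebraMap ℝ R w := by
    rw [← map_pow, Real.sq_sqrt hw]
  have h3 : (algebraMap ℝ R (-Real.sqrt w)) ^ 2 = algebraMap ℝ R w := by
    rw [← map_pow, neg_sq, Real.sq_sqrt hw]
  rw [h2, h3, map_neg]
  split_ifs <;> ring

/-- The expected characteristic polynomial (in the variable `t`, of `t + X`). -/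
noncomputable def Pav (l : List ((V × V) × ℝ)) (X : Matrix V V ℝ) : ℝ[X] :=
  Fav l (X.map (C : ℝ →+* ℝ[X]) + (Polynomial.X : ℝ[X]) • (1 : Matrix V V ℝ[X])) Finset.univ

lemma Pav_eval (l : List ((V × V) × ℝ)) (X : Matrix V V ℝ) (t : ℝ) :
    (Pav l X).eval t = Fav l (X + t • (1 : Matrix V V ℝ)) Finset.univ := by
  have h := Fav_map (Polynomial.aeval t : ℝ[X] →ₐ[ℝ] ℝ) l
    (X.map (C : ℝ →+* ℝ[X]) + (Polynomial.X : ℝ[X]) • (1 : Matrix V V ℝ[X])) Finset.univ
  have h2 : ((X.map (C : ℝ →+* ℝ[X]) + (Polynomial.X : ℝ[X]) • (1 : Matrix V V ℝ[X])).map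
      (Polynomial.aeval t : ℝ[X] →ₐ[ℝ] ℝ)) = X + t • (1 : Matrix V V ℝ) := by
    ext i j
    by_cases hij : i = j
    · subst hij; simp
    · simp [Matrix.one_apply_ne hij]
  rw [h2] at h
  rw [← h, Pav]
  simp

lemma Pav_aeval (l : List ((V × V) × ℝ)) (X : Matrix V V ℝ) (z : ℂ) :
    Polynomial.aeval z (Pav l X) =
      Fav l (X.map (Complex.ofReal) + z • (1 : Matrix V V ℂ)) Finset.univ := by
  have h := Fav_map (Polynomial.aeval z : ℝ[X] →ₐ[ℝ] ℂ) l
    (X.map (C : ℝ →+* ℝ[X]) + (Polynomial.X : ℝ[X]) • (1 : Matrix V V ℝ[X])) Finset.univ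
  have h2 : ((X.map (C : ℝ →+* ℝ[X]) + (Polynomial.X : ℝ[X]) • (1 : Matrix V V ℝ[X])).map
      (Polynomial.aeval z : ℝ[X] →ₐ[ℝ] ℂ)) = X.map (Complex.ofReal) + z • (1 : Matrix V V ℂ) := by
    ext i j
    by_cases hij : i = j
    · subst hij; simp
    · simp [Matrix.one_apply_ne hij]
  rw [h2] at h
  rw [← h, Pav]

lemma Pav_nil (X : Matrix V V ℝ) : Pav [] X = (-X).charpoly := by
  unfold Pav
  rw [Fav_nil, Dm_univ, Matrix.charpoly]
  congr 1
  ext i j
  by_cases hij : i = j
  · subst hij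
    simp [Matrix.charmatrix_apply]
    ring
  · simp [Matrix.charmatrix_apply, hij, Matrix.one_apply_ne hij]

lemma Pav_avg (e : V × V) (he : e.1 ≠ e.2) (w : ℝ) (hw : 0 ≤ w)
    (l : List ((V × V) × ℝ)) (X : Matrix V V ℝ) :
    (2 : ℝ[X]) * Pav ((e, w) :: l) X =
      Pav l (X + (Real.sqrt w) • Esym e) + Pav l (X + (-Real.sqrt w) • Esym e) := by
  unfold Pav
  rw [Fav_avg e he w hw]
  have key : ∀ a : ℝ, X.map (C : ℝ →+* ℝ[X]) + (Polynomial.X : ℝ[X]) • (1 : Matrix V V ℝ[X]) +
      (algebraMap ℝ ℝ[X] a) • Esym e =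
      (X + a • Esym e).map (C : ℝ →+* ℝ[X]) + (Polynomial.X : ℝ[X]) • (1 : Matrix V V ℝ[X]) := by
    intro a
    ext1 i j
    simp only [Matrix.add_apply, Matrix.map_apply, Matrix.smul_apply, smul_eq_mul, Esym,
      Matrix.single_apply, map_add, map_mul, Polynomial.algebraMap_eq]
    have h1 : ∀ p : Prop, ∀ [Decidable p], (C (if p then (1:ℝ) else 0) : ℝ[X]) = if p then 1 else 0 := by
      intro p _; split_ifs <;> simp
    rw [h1, h1]
    ring
  rw [key, key]

lemma Pav_monic_natDegree (l : List ((V × V) × ℝ)) (hl : ∀ p ∈ l, 0 ≤ p.2)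
    (hne : ∀ p ∈ l, p.1.1 ≠ p.1.2) : ∀ X : Matrix V V ℝ,
    (Pav l X).Monic ∧ (Pav l X).natDegree = Fintype.card V := by
  induction l with
  | nil =>
    intro X
    rw [Pav_nil]
    exact ⟨Matrix.charpoly_monic _, Matrix.charpoly_natDegree_eq_dim _⟩
  | cons p l ih =>
    obtain ⟨e, w⟩ := p
    intro X
    have ih' := ih (fun p hp => hl p (List.mem_cons_of_mem _ hp))
      (fun p hp => hne p (List.mem_cons_of_mem _ hp))
    have hw : 0 ≤ w := hl (e, w) (by simp)
    have he : e.1 ≠ e.2 := hne (e, w) (by simp)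
    have havg := Pav_avg e he w hw l X
    obtain ⟨m1, d1⟩ := ih' (X + (Real.sqrt w) • Esym e)
    obtain ⟨m2, d2⟩ := ih' (X + (-Real.sqrt w) • Esym e)
    set P := Pav ((e, w) :: l) X
    set P1 := Pav l (X + (Real.sqrt w) • Esym e)
    set P2 := Pav l (X + (-Real.sqrt w) • Esym e)
    have hP : P = C (1/2 : ℝ) * (P1 + P2) := by
      rw [← havg, ← mul_assoc]
      have : (C (1/2 : ℝ) : ℝ[X]) * 2 = 1 := by
        have h2 : (2 : ℝ[X]) = C (2 : ℝ) := (map_ofNat C 2).symm
        rw [h2, ← C_mul]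
        norm_num
      rw [this, one_mul]
    have hcoef : P.coeff (Fintype.card V) = 1 := by
      rw [hP, coeff_C_mul, coeff_add]
      have c1 : P1.coeff (Fintype.card V) = 1 := by rw [← d1]; exact m1
      have c2 : P2.coeff (Fintype.card V) = 1 := by rw [← d2]; exact m2
      rw [c1, c2]; norm_num
    have hle : P.natDegree ≤ Fintype.card V := by
      rw [hP]
      refine (natDegree_C_mul_le _ _).trans ((natDegree_add_le _ _).trans ?_)
      rw [d1, d2]; simp
    have hdeg : P.natDegree = Fintype.card V := by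
      apply le_antisymm hle
      apply le_natDegree_of_ne_zero
      rw [hcoef]; norm_num
    refine ⟨?_, hdeg⟩
    unfold Polynomial.Monic Polynomial.leadingCoeff
    rw [hdeg, hcoef]

/-- All complex roots of the expected characteristic polynomial are real. -/
lemma Pav_root_real (l : List ((V × V) × ℝ)) (hl : ∀ p ∈ l, 0 ≤ p.2)
    (hne : ∀ p ∈ l, p.1.1 ≠ p.1.2) (X : Matrix V V ℝ) (hX : X.IsSymm) (z : ℂ)
    (hz : Polynomial.aeval z (Pav l X) = 0) : z.im = 0 := by
  have hXC : (X.map Complex.ofReal).IsHermitian := by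
    ext i j
    simp only [Matrix.conjTranspose_apply, Matrix.map_apply, Complex.star_def, Complex.conj_ofReal]
    rw [hX.apply]
  have key : ∀ y : ℂ, Polynomial.aeval y (Pav l X) = 0 → ¬ (0 < y.im) := by
    intro y hy hpos
    rw [Pav_aeval] at hy
    have hd : y • (1 : Matrix V V ℂ) = Matrix.diagonal (fun _ => y) := by
      ext i j; by_cases hij : i = j
      · subst hij; simp
      · simp [hij]
    rw [hd] at hy
    exact Fav_ne_zero _ hXC l hl hne Finset.univ _ (fun _ => hpos) hy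
  have h1 := key z hz
  have hz2 : Polynomial.aeval ((starRingEnd ℂ) z) (Pav l X) = 0 := by
    have : Polynomial.aeval ((starRingEnd ℂ) z) (Pav l X) =
        (starRingEnd ℂ) (Polynomial.aeval z (Pav l X)) := by
      rw [Polynomial.aeval_conj]
    rw [this, hz, map_zero]
  have h2 := key _ hz2
  simp only [Complex.conj_im] at h2
  linarith

lemma prod_norm_ge (c : ℝ) (hc : 0 ≤ c) (t : ℂ) (s : Multiset ℂ) (h : ∀ a ∈ s, c ≤ ‖t - a‖) :
    c ^ (Multiset.card s) ≤ ‖(s.map (fun a => t - a)).prod‖ := by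
  induction s using Multiset.induction_on with
  | empty => simp
  | cons a s ih =>
    rw [Multiset.map_cons, Multiset.prod_cons, norm_mul, Multiset.card_cons, pow_succ, mul_comm]
    exact mul_le_mul (h a (Multiset.mem_cons_self a s))
      (ih (fun b hb => h b (Multiset.mem_cons_of_mem hb))) (pow_nonneg hc _) (norm_nonneg _)

/-- A monic real polynomial of degree `n` all of whose complex roots are real and `< t0` is at
least `(t - t0)^n` at `t ≥ t0` in absolute value. -/
lemma abs_eval_ge (P : ℝ[X]) (hm : P.Monic) (t0 t : ℝ) (ht : t0 ≤ t)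
    (hroots : ∀ z : ℂ, Polynomial.aeval z P = 0 → z.im = 0 ∧ z.re < t0) :
    (t - t0) ^ P.natDegree ≤ |P.eval t| := by
  have hPC : (P.map (algebraMap ℝ ℂ)).Monic := hm.map _
  have hsplit := IsAlgClosed.splits (P.map (algebraMap ℝ ℂ))
  have heq : (P.map (algebraMap ℝ ℂ)).eval (t : ℂ) =
      ((P.map (algebraMap ℝ ℂ)).roots.map (fun a => (t : ℂ) - a)).prod := by
    conv_lhs => rw [hsplit.eq_prod_roots_of_monic hPC]
    rw [Polynomial.eval_multiset_prod, Multiset.map_map]
    congr 1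
    apply Multiset.map_congr rfl
    intro x _
    simp
  have hcard : Multiset.card (P.map (algebraMap ℝ ℂ)).roots = P.natDegree := by
    rw [← hsplit.natDegree_eq_card_roots, natDegree_map]
  have habs : |P.eval t| = ‖(P.map (algebraMap ℝ ℂ)).eval (t : ℂ)‖ := by
    have : (P.map (algebraMap ℝ ℂ)).eval (t : ℂ) = ((P.eval t : ℝ) : ℂ) := by
      rw [eval_map]
      exact (Polynomial.eval₂_at_apply (algebraMap ℝ ℂ) t)
    rw [this, Complex.norm_real, Real.norm_eq_abs]
  rw [habs, heq]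
  rw [← hcard]
  apply prod_norm_ge _ (by linarith)
  intro a ha
  have hroot : Polynomial.aeval a P = 0 := by
    have := (Polynomial.mem_roots'.mp ha).2
    rw [Polynomial.IsRoot, eval_map] at this
    exact this
  obtain ⟨him, hre⟩ := hroots a hroot
  calc t - t0 ≤ t - a.re := by linarith
    _ ≤ |t - a.re| := le_abs_self _
    _ = |((t : ℂ) - a).re| := by simp
    _ ≤ ‖(t : ℂ) - a‖ := Complex.abs_re_le_norm _

/-- One step of the selection: the sign of one edge can be fixed. -/
theorem select_step (e : V × V) (he : e.1 ≠ e.2) (l : List ((V × V) × ℝ))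
    (hl : ∀ p ∈ l, 0 ≤ p.2) (hne : ∀ p ∈ l, p.1.1 ≠ p.1.2) (X : Matrix V V ℝ) (hX : X.IsSymm)
    (t0 : ℝ)
    (h : ∀ t : ℝ, t0 ≤ t → 0 < Fav ((e, 1) :: l) (X + t • (1 : Matrix V V ℝ)) Finset.univ) :
    ∃ s : ℝ, (s = 1 ∨ s = -1) ∧
      ∀ t : ℝ, t0 ≤ t → 0 < Fav l (X + s • Esym e + t • (1 : Matrix V V ℝ)) Finset.univ := by
  choose K hK using fun t : ℝ => Fav_add_edge l (X + t • (1 : Matrix V V ℝ)) Finset.univ e he
  set g0 : ℝ → ℝ := fun t => Fav ((e, 1) :: l) (X + t • (1 : Matrix V V ℝ)) Finset.univ with hg0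
  have hg0' : ∀ t, g0 t = (Pav ((e, 1) :: l) X).eval t := fun t => (Pav_eval _ _ _).symm
  have hEsymm : ∀ a : ℝ, (X + a • (Esym e : Matrix V V ℝ)).IsSymm := by
    intro a
    unfold Matrix.IsSymm
    rw [Matrix.transpose_add, Matrix.transpose_smul, hX.eq]
    congr 2
    ext i j
    simp only [Esym, Matrix.transpose_apply, Matrix.add_apply, Matrix.single_apply]
    have : ∀ x y : V, (if e.1 = x ∧ e.2 = y then (1:ℝ) else 0) = if e.1 = x ∧ e.2 = y then 1 else 0 :=
      fun _ _ => rfl
    rw [add_comm]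
    congr 1 <;> simp [and_comm]
  -- value of the interpolating polynomials
  have hval : ∀ a t : ℝ, (Pav ((e, 1 - a ^ 2) :: l) (X + a • Esym e)).eval t = g0 t + a * K t := by
    intro a t
    rw [Pav_eval, Fav_cons]
    have hcomm : X + a • Esym e + t • (1 : Matrix V V ℝ) =
        X + t • (1 : Matrix V V ℝ) + a • Esym e := by abel
    simp only [Finset.mem_univ, and_self, if_true]
    rw [hcomm, hK t a, Fav_add_edge_notMem l _ _ e a (by simp)]
    simp only [hg0, Fav_cons, Finset.mem_univ, and_self, if_true, Algebra.algebraMap_self,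
      RingHom.id_apply]
    ring
  have hval1 : ∀ s t : ℝ, s ^ 2 = 1 →
      Fav l (X + s • Esym e + t • (1 : Matrix V V ℝ)) Finset.univ = g0 t + s * K t := by
    intro s t hs
    have hcomm : X + s • Esym e + t • (1 : Matrix V V ℝ) =
        X + t • (1 : Matrix V V ℝ) + s • Esym e := by abel
    rw [hcomm, hK t s]
    simp only [hg0, Fav_cons, Finset.mem_univ, and_self, if_true, Algebra.algebraMap_self,
      RingHom.id_apply, hs]
    ring
  -- choose the sign
  obtain ⟨s, hs, hsK⟩ : ∃ s : ℝ, (s = 1 ∨ s = -1) ∧ 0 ≤ s * K t0 := by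
    rcases le_total 0 (K t0) with h0 | h0
    · exact ⟨1, Or.inl rfl, by simpa using h0⟩
    · exact ⟨-1, Or.inr rfl, by simpa using h0⟩
  have hs2 : s ^ 2 = 1 := by rcases hs with rfl | rfl <;> norm_num
  refine ⟨s, hs, ?_⟩
  intro ρ hρ
  rw [hval1 s ρ hs2]
  by_contra hcon
  push Not at hcon
  have hg0pos : ∀ t, t0 ≤ t → 0 < g0 t := h
  -- eventually positive
  have hq : ∀ t, (Pav l (X + s • Esym e)).eval t = g0 t + s * K t := by
    intro t; rw [Pav_eval, hval1 s t hs2]
  obtain ⟨hqm, hqd⟩ := Pav_monic_natDegree l hl hne (X + s • Esym e)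
  have hcard : 0 < Fintype.card V := Fintype.card_pos_iff.mpr ⟨e.1⟩
  have htend : Filter.Tendsto (fun t => (Pav l (X + s • Esym e)).eval t) Filter.atTop
      Filter.atTop := by
    apply Polynomial.tendsto_atTop_of_leadingCoeff_nonneg
    · rw [← Polynomial.natDegree_pos_iff_degree_pos, hqd]; exact hcard
    · rw [hqm]; norm_num
  obtain ⟨T, hTρ, hT⟩ : ∃ T, ρ ≤ T ∧ ∀ t, T ≤ t → 0 < g0 t + s * K t := by
    have := (htend.eventually_gt_atTop 0)
    obtain ⟨T, hT⟩ := Filter.eventually_atTop.mp this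
    refine ⟨max T ρ, le_max_right _ _, fun t ht => ?_⟩
    rw [← hq]
    exact hT t ((le_max_left _ _).trans ht)
  set φ : ℝ → ℝ := fun t => - (s * K t) / g0 t with hφ
  have hsKpoly : ∀ t, s * K t = (Pav l (X + s • Esym e)).eval t - (Pav ((e, 1) :: l) X).eval t := by
    intro t; rw [hq, ← hg0']; ring
  have hφcont : ContinuousOn φ (Set.Icc t0 T) := by
    have h1 : ContinuousOn (fun t => - ((Pav l (X + s • Esym e)).eval t -
        (Pav ((e, 1) :: l) X).eval t) / (Pav ((e, 1) :: l) X).eval t) (Set.Icc t0 T) := by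
      apply ContinuousOn.div
      · exact ((Polynomial.continuous _).sub (Polynomial.continuous _)).neg.continuousOn
      · exact (Polynomial.continuous _).continuousOn
      · intro t ht
        rw [← hg0']
        exact (hg0pos t ht.1).ne'
    apply h1.congr
    intro t _
    simp only [hφ]
    rw [hsKpoly, hg0']
  have hT0 : t0 ≤ T := hρ.trans hTρ
  obtain ⟨ts, hts, hmax⟩ := isCompact_Icc.exists_isMaxOn ⟨t0, Set.left_mem_Icc.mpr hT0⟩ hφcont
  have hmax' : ∀ t ∈ Set.Icc t0 T, φ t ≤ φ ts := fun t ht => hmax ht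
  have hφρ : 1 ≤ φ ρ := by
    simp only [hφ]
    rw [le_div_iff₀ (hg0pos ρ hρ)]
    linarith
  have hφts : 1 ≤ φ ts := hφρ.trans (hmax' ρ ⟨hρ, hTρ⟩)
  have hφt0 : φ t0 ≤ 0 := by
    simp only [hφ]
    apply div_nonpos_of_nonpos_of_nonneg
    · linarith
    · exact (hg0pos t0 le_rfl).le
  have hts0 : t0 < ts := by
    rcases lt_or_eq_of_le hts.1 with h1 | h1
    · exact h1
    · rw [← h1] at hφts; linarith
  have hφpos : 0 < φ ts := by linarith
  -- the key inequality for all small δ
  have key : ∀ δ : ℝ, 0 < δ → δ ≤ 1 → (ts - t0) ^ (Fintype.card V) ≤ g0 ts * δ := by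
    intro δ hδ hδ1
    set a : ℝ := (1 - δ) / φ ts with ha
    have ha0 : 0 ≤ a := div_nonneg (by linarith) hφpos.le
    have haφ : a * φ ts = 1 - δ := by rw [ha]; field_simp
    have ha1 : a ≤ 1 := by
      rw [ha, div_le_one hφpos]; linarith
    have hfact : ∀ t, t0 ≤ t → g0 t + (a * s) * K t = g0 t * (1 - a * φ t) := by
      intro t ht
      have := (hg0pos t ht).ne'
      simp only [hφ]
      field_simp
      ring
    have hlt : ∀ t, t0 ≤ t → a * φ t < 1 := by
      intro t ht
      rcases le_or_gt (φ t) 0 with h0 | h0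
      · have : a * φ t ≤ 0 := mul_nonpos_of_nonneg_of_nonpos ha0 h0
        linarith
      · rcases le_or_gt t T with h1 | h1
        · have : a * φ t ≤ a * φ ts := mul_le_mul_of_nonneg_left (hmax' t ⟨ht, h1⟩) ha0
          linarith
        · have h2 : φ t < 1 := by
            simp only [hφ]
            rw [div_lt_one (hg0pos t ht)]
            have := hT t h1.le
            linarith
          have : a * φ t ≤ 1 * φ t := mul_le_mul_of_nonneg_right ha1 h0.le
          linarith
    have hpos : ∀ t, t0 ≤ t → 0 < g0 t + (a * s) * K t := by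
      intro t ht
      rw [hfact t ht]
      exact mul_pos (hg0pos t ht) (by linarith [hlt t ht])
    have has : (a * s) ^ 2 = a ^ 2 := by rw [mul_pow, hs2, mul_one]
    have hl' : ∀ p ∈ ((e, 1 - (a * s) ^ 2) :: l), 0 ≤ p.2 := by
      intro p hp
      rcases List.mem_cons.mp hp with rfl | hp
      · simp only [has]
        nlinarith
      · exact hl p hp
    have hne' : ∀ p ∈ ((e, 1 - (a * s) ^ 2) :: l), p.1.1 ≠ p.1.2 := by
      intro p hp
      rcases List.mem_cons.mp hp with rfl | hp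
      · exact he
      · exact hne p hp
    obtain ⟨hPm, hPd⟩ := Pav_monic_natDegree _ hl' hne' (X + (a * s) • Esym e)
    have hroots : ∀ z : ℂ, Polynomial.aeval z
        (Pav ((e, 1 - (a * s) ^ 2) :: l) (X + (a * s) • Esym e)) = 0 → z.im = 0 ∧ z.re < t0 := by
      intro z hz
      have him := Pav_root_real _ hl' hne' _ (hEsymm _) z hz
      refine ⟨him, ?_⟩
      by_contra hre
      push Not at hre
      have hzr : z = ((z.re : ℝ) : ℂ) := by
        apply Complex.ext <;> simp [him]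
      rw [hzr] at hz
      have h3 : Polynomial.aeval ((z.re : ℝ) : ℂ)
          (Pav ((e, 1 - (a * s) ^ 2) :: l) (X + (a * s) • Esym e)) =
          (((Pav ((e, 1 - (a * s) ^ 2) :: l) (X + (a * s) • Esym e)).eval z.re : ℝ) : ℂ) := by
        exact (Polynomial.aeval_algebraMap_apply_eq_algebraMap_eval (A := ℂ) z.re _)
      rw [h3, hval] at hz
      have := hpos z.re hre
      have hz' : g0 z.re + (a * s) * K z.re = 0 := by exact_mod_cast hz
      linarith
    have hge := abs_eval_ge _ hPm t0 ts hts.1 hroots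
    rw [hPd, hval, hfact ts hts.1, haφ] at hge
    have h4 : g0 ts * (1 - (1 - δ)) = g0 ts * δ := by ring
    rw [h4, abs_of_nonneg (mul_nonneg (hg0pos ts hts.1).le hδ.le)] at hge
    exact hge
  have hc : 0 < (ts - t0) ^ (Fintype.card V) := pow_pos (by linarith) _
  have hgts := hg0pos ts hts.1
  set c := (ts - t0) ^ (Fintype.card V)
  have h5 := key (min 1 (c / (2 * g0 ts))) (by positivity) (min_le_left _ _)
  have h6 : g0 ts * min 1 (c / (2 * g0 ts)) ≤ g0 ts * (c / (2 * g0 ts)) :=
    mul_le_mul_of_nonneg_left (min_le_right _ _) hgts.le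
  have h7 : g0 ts * (c / (2 * g0 ts)) = c / 2 := by field_simp
  linarith

/-- Selection of a good signing. -/
theorem exists_signing (l : List (V × V)) (hnd : l.Nodup) (hne : ∀ p ∈ l, p.1 ≠ p.2) :
    ∀ (X : Matrix V V ℝ), X.IsSymm → ∀ (t0 : ℝ),
    (∀ t : ℝ, t0 ≤ t → 0 < Fav (l.map (fun e => (e, (1 : ℝ)))) (X + t • (1 : Matrix V V ℝ))
      Finset.univ) →
    ∃ s : V × V → ℝ, (∀ e, s e = 1 ∨ s e = -1) ∧
      ∀ t : ℝ, t0 ≤ t →
        0 < (X + (l.map (fun e => s e • (Esym e : Matrix V V ℝ))).sum +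
          t • (1 : Matrix V V ℝ)).det := by
  induction l with
  | nil =>
    intro X _ t0 h
    refine ⟨fun _ => 1, fun _ => Or.inl rfl, fun t ht => ?_⟩
    have := h t ht
    simpa [Dm_univ] using this
  | cons e l ih =>
    intro X hX t0 h
    have hnd' := List.nodup_cons.mp hnd
    have he : e.1 ≠ e.2 := hne e (by simp)
    have hne' : ∀ p ∈ l, p.1 ≠ p.2 := fun p hp => hne p (List.mem_cons_of_mem _ hp)
    have hl1 : ∀ p ∈ l.map (fun e => (e, (1 : ℝ))), 0 ≤ p.2 := by
      intro p hp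
      obtain ⟨q, _, rfl⟩ := List.mem_map.mp hp
      norm_num
    have hl2 : ∀ p ∈ l.map (fun e => (e, (1 : ℝ))), p.1.1 ≠ p.1.2 := by
      intro p hp
      obtain ⟨q, hq, rfl⟩ := List.mem_map.mp hp
      exact hne' q hq
    rw [List.map_cons] at h
    obtain ⟨s0, hs0, hstep⟩ := select_step e he _ hl1 hl2 X hX t0 h
    have hsymm : (X + s0 • (Esym e : Matrix V V ℝ)).IsSymm := by
      unfold Matrix.IsSymm
      rw [Matrix.transpose_add, Matrix.transpose_smul, hX.eq]
      congr 2
      ext i j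
      simp only [Esym, Matrix.transpose_apply, Matrix.add_apply, Matrix.single_apply]
      rw [add_comm]
      congr 1 <;> simp [and_comm]
    obtain ⟨s, hs, hfin⟩ := ih hnd'.2 hne' (X + s0 • Esym e) hsymm t0 hstep
    refine ⟨Function.update s e s0, ?_, ?_⟩
    · intro f
      by_cases hf : f = e
      · subst hf; simpa using hs0
      · rw [Function.update_of_ne hf]; exact hs f
    · intro t ht
      have := hfin t ht
      rw [List.map_cons, List.sum_cons, Function.update_self]
      have hmap : l.map (fun f => Function.update s e s0 f • (Esym f : Matrix V V ℝ)) =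
          l.map (fun f => s f • (Esym f : Matrix V V ℝ)) := by
        apply List.map_congr_left
        intro f hf
        have : f ≠ e := fun h => hnd'.1 (h ▸ hf)
        rw [Function.update_of_ne this]
      rw [hmap, ← add_assoc]
      exact this

end Pool.Agent.H.MP_8e2f96_co
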